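import Pool.Agent.helper29.RS.SpecK
import Pool.Agent.helper62.QU.All

/-! Rows FL1, FL2, FL3 of project RS (MP_07c750_an). -/

open scoped MatrixGroups ContDiff Topology UpperHalfPlane ComplexConjugate
open UpperHalfPlane MeasureTheory Filter Set

namespace Pool.Agent.RS

theorem FL1_inv (h : ℝ → SL(2, ℝ)) (hadd : ∀ s t, h (s + t) = h s * h t) (t : ℝ) : h t * h (-t) = 1 ∧ h 0 = 1 := by
  have h0 : h 0 = 1 := by
    have := hadd 0 0
    rw [add_zero] at this
    exact (mul_eq_left.1 this.symm)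
  refine ⟨?_, h0⟩
  rw [← hadd, add_neg_cancel, h0]

/-- the general form of the three rows -/
theorem FL1_gen (h : ℝ → SL(2, ℝ)) (hc : Continuous h) (hadd : ∀ s t, h (s + t) = h s * h t) (f Xf φ : ℍ → ℂ)
    (hf : Continuous f) (hfs : HasCompactSupport f) (hX : Continuous Xf) (hXs : HasCompactSupport Xf) (hφ : Continuous φ)
    (hd : ∀ z, HasDerivAt (fun t : ℝ => f (h (-t) • z)) (Xf z) 0) (g : SL(2, ℝ)) :
    HasDerivAt (fun t : ℝ => Wf f φ (g * h t)) (Wf Xf φ g) 0 := by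
  have e : ∀ t, Wf f φ (g * h t) = ∫ z : ℍ, f (h (-t) • z) * φ (g • z) := by
    intro t
    unfold Wf
    have := QU.A_INV.2.2.2.1 ℂ (h t) (fun z => f (h (-t) • z) * φ (g • z))
    rw [← this]
    refine integral_congr_ae (Eventually.of_forall fun z => ?_)
    show f z * φ ((g * h t) • z) = f (h (-t) • h t • z) * φ (g • h t • z)
    have h1 : h (-t) * h t = 1 := by
      have := (FL1_inv h hadd (-t)).1
      rwa [neg_neg] at this
    rw [← mul_smul, h1, one_smul, mul_smul]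
  have e' : (fun t : ℝ => Wf f φ (g * h t)) = fun t => ∫ z : ℍ, f (h (-t) • z) * φ (g • z) := funext e
  rw [e']
  have hgd : ∀ (z : ℍ) (t0 : ℝ), HasDerivAt (fun t : ℝ => f (h (-t) • z)) (Xf (h (-t0) • z)) t0 := by
    intro z t0
    have h1 := hd (h (-t0) • z)
    have h2 : HasDerivAt (fun t : ℝ => t - t0) 1 t0 := (hasDerivAt_id t0).sub_const t0
    have h3 : HasDerivAt (fun t : ℝ => f (h (-t) • h (-t0) • z)) (Xf (h (-t0) • z)) (t0 - t0) := by
      rw [sub_self]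
      exact h1
    have h4 := HasDerivAt.comp_sub_const t0 t0 h3
    refine h4.congr_of_eventuallyEq (Eventually.of_forall fun t => ?_)
    show f (h (-t) • z) = f (h (-(t - t0)) • h (-t0) • z)
    rw [← mul_smul, ← hadd, show -(t - t0) + -t0 = -t by ring]
  -- compact set
  have hact : Continuous (fun p : ℝ × ℍ => h p.1 • p.2) := (hc.comp continuous_fst).smul continuous_snd
  set K' : Set ℍ := (fun p : ℝ × ℍ => h p.1 • p.2) '' (Icc (-1 : ℝ) 1 ×ˢ tsupport Xf) with hK'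
  have hK'c : IsCompact K' := (isCompact_Icc.prod hXs).image hact
  obtain ⟨C1, hC1⟩ : ∃ C, ∀ z, ‖Xf z‖ ≤ C := by
    obtain ⟨C, hC⟩ := hXs.exists_bound_of_continuous hX
    exact ⟨C, hC⟩
  have hφg : Continuous (fun z : ℍ => φ (g • z)) := hφ.comp (continuous_const_smul g)
  obtain ⟨C2, hC2⟩ := hK'c.exists_bound_of_continuousOn hφg.continuousOn
  have hC1' : 0 ≤ C1 := (norm_nonneg _).trans (hC1 I)
  set bound : ℍ → ℝ := K'.indicator (fun _ => C1 * C2) with hbound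
  have hcs : ∀ t, HasCompactSupport (fun z : ℍ => f (h (-t) • z)) := by
    intro t
    have : (fun z : ℍ => f (h (-t) • z)) = f ∘ (Homeomorph.smul (h (-t)) : ℍ ≃ₜ ℍ) := rfl
    rw [this]
    exact hfs.comp_homeomorph _
  have hcont : ∀ t, Continuous (fun z : ℍ => f (h (-t) • z) * φ (g • z)) := fun t =>
    (hf.comp (continuous_const_smul _)).mul hφg
  have key := hasDerivAt_integral_of_dominated_loc_of_deriv_le (μ := (volume : Measure ℍ))
    (F := fun t (z : ℍ) => f (h (-t) • z) * φ (g • z)) (F' := fun t (z : ℍ) => Xf (h (-t) • z) * φ (g • z)) (x₀ := (0 : ℝ))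
    (s := Metric.ball 0 1) (bound := bound) (Metric.ball_mem_nhds 0 one_pos)
    (Eventually.of_forall fun t => (hcont t).aestronglyMeasurable) ?_ ?_ ?_ ?_ ?_
  · have h1 := key.2
    have h2 : (∫ z : ℍ, Xf (h (-0) • z) * φ (g • z)) = Wf Xf φ g := by
      unfold Wf
      rw [neg_zero, (FL1_inv h hadd 0).2]
      simp only [one_smul]
    rw [h2] at h1
    exact h1
  · exact (hcont 0).integrable_of_hasCompactSupport ((hcs 0).mul_right)
  · exact ((hX.comp (continuous_const_smul _)).mul hφg).aestronglyMeasurable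
  · refine Eventually.of_forall fun z t ht => ?_
    show ‖Xf (h (-t) • z) * φ (g • z)‖ ≤ bound z
    by_cases hz : z ∈ K'
    · rw [hbound, indicator_of_mem hz, norm_mul]
      have := hC2 z hz
      exact mul_le_mul (hC1 _) this (norm_nonneg _) hC1'
    · rw [hbound, indicator_of_notMem hz]
      have : Xf (h (-t) • z) = 0 := by
        by_contra hne
        apply hz
        refine ⟨(t, h (-t) • z), ⟨?_, subset_tsupport _ hne⟩, ?_⟩
        · rw [Metric.mem_ball, dist_zero_right, Real.norm_eq_abs, abs_lt] at ht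
          exact ⟨ht.1.le, ht.2.le⟩
        · show h t • h (-t) • z = z
          rw [← mul_smul, (FL1_inv h hadd t).1, one_smul]
      rw [this]
      simp
  · rw [hbound]
    refine (integrable_indicator_iff hK'c.measurableSet).2 ?_
    exact integrableOn_const hK'c.measure_lt_top.ne
  · refine Eventually.of_forall fun z t _ => ?_
    exact (hgd z t).mul_const _

/-- derivative of a packet along a curve in the half-plane -/
theorem FL1_pk (r : ℝ) (c : ℍ → ℂ) (hc : QU.CD ∞ c) (z : ℍ) (w : ℝ → ℍ) (w' : ℂ) (hw0 : w 0 = z)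
    (hw : HasDerivAt (fun t => ((w t : ℍ) : ℂ)) w' 0) :
    HasDerivAt (fun t : ℝ => pk r c (w t)) (fderiv ℝ (QU.onC c) (z : ℂ) w' * ((z.im : ℝ) : ℂ) ^ ((1 / 2 : ℂ) + (r : ℂ) * Complex.I) +
      c z * (((1 / 2 : ℂ) + (r : ℂ) * Complex.I) * ((z.im : ℝ) : ℂ) ^ ((1 / 2 : ℂ) + (r : ℂ) * Complex.I) * ((w'.im / z.im : ℝ) : ℂ))) 0 := by
  have hopen : IsOpen {w : ℂ | 0 < w.im} := isOpen_lt continuous_const Complex.continuous_im
  have hdiff : DifferentiableAt ℝ (QU.onC c) (z : ℂ) := by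
    have h1 : ContDiffAt ℝ ∞ (QU.onC c) (z : ℂ) := hc.contDiffAt (hopen.mem_nhds z.im_pos)
    exact h1.differentiableAt (by simp)
  have hz0 : ((w 0 : ℍ) : ℂ) = (z : ℂ) := by rw [hw0]
  have h1 : HasDerivAt (fun t : ℝ => QU.onC c ((w t : ℍ) : ℂ)) (fderiv ℝ (QU.onC c) (z : ℂ) w') 0 := by
    have h2 : HasFDerivAt (QU.onC c) (fderiv ℝ (QU.onC c) (z : ℂ)) ((w 0 : ℍ) : ℂ) := by
      rw [hz0]
      exact hdiff.hasFDerivAt
    exact h2.comp_hasDerivAt 0 hw
  have e1 : (fun t : ℝ => QU.onC c ((w t : ℍ) : ℂ)) = fun t => c (w t) := by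
    funext t
    unfold QU.onC
    rw [ofComplex_apply]
  rw [e1] at h1
  have h3 : HasDerivAt (fun t : ℝ => (w t).im) w'.im 0 := by
    have := Complex.imCLM.hasFDerivAt.comp_hasDerivAt (0 : ℝ) hw
    exact this
  have h4 : HasDerivAt (fun t : ℝ => (((w t).im : ℝ) : ℂ)) ((w'.im : ℝ) : ℂ) 0 := h3.ofReal_comp
  have hslit : (((w 0).im : ℝ) : ℂ) ∈ Complex.slitPlane := by
    rw [hw0]
    exact Complex.ofReal_mem_slitPlane.2 z.im_pos
  have h5 : HasDerivAt (fun t : ℝ => (((w t).im : ℝ) : ℂ) ^ ((1 / 2 : ℂ) + (r : ℂ) * Complex.I))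
      (((1 / 2 : ℂ) + (r : ℂ) * Complex.I) * (((w 0).im : ℝ) : ℂ) ^ (((1 / 2 : ℂ) + (r : ℂ) * Complex.I) - 1) * ((w'.im : ℝ) : ℂ)) 0 := by
    have h6 : HasDerivAt (fun ζ : ℂ => ζ ^ ((1 / 2 : ℂ) + (r : ℂ) * Complex.I))
        (((1 / 2 : ℂ) + (r : ℂ) * Complex.I) * (((w 0).im : ℝ) : ℂ) ^ (((1 / 2 : ℂ) + (r : ℂ) * Complex.I) - 1)) (((w 0).im : ℝ) : ℂ) := by
      have := (hasDerivAt_id (((w 0).im : ℝ) : ℂ)).cpow_const (c := ((1 / 2 : ℂ) + (r : ℂ) * Complex.I)) hslit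
      simpa using this
    have h8 := HasFDerivAt.comp_hasDerivAt (𝕜 := ℝ) (f := fun t : ℝ => (((w t).im : ℝ) : ℂ)) (0 : ℝ) (h6.hasFDerivAt.restrictScalars ℝ) h4
    refine h8.congr_deriv ?_
    simp only [ContinuousLinearMap.coe_restrictScalars', ContinuousLinearMap.toSpanSingleton_apply, smul_eq_mul]
    ring
  have h7 := h1.mul h5
  refine h7.congr_deriv ?_
  rw [hw0]
  have hy : ((z.im : ℝ) : ℂ) ≠ 0 := by exact_mod_cast z.im_pos.ne'
  rw [Complex.cpow_sub _ _ hy, Complex.cpow_one]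
  push_cast
  field_simp

theorem FL1_tst (hFL0 : FL0_stmt) (r : ℝ) (c : ℍ → ℂ) (hc : TB (1 / 4) c) : Continuous (pk r c) ∧ HasCompactSupport (pk r c) := by
  have hpk := hFL0.2.1 (1 / 4) r c hc
  refine ⟨?_, hpk.2⟩
  exact ((QU.A_CA1 ℂ).1 (pk r c)).1 ((QU.A_CA1 ℂ).2.1 (pk r c) 0 ∞ (by exact_mod_cast bot_le) hpk.1)

theorem FL1 (hGLC : GLC_stmt) (hFL0 : FL0_stmt) : FL1_stmt := by
  intro r c φ hc hφ g
  have hTB := hFL0.1 (1 / 4) c hc
  have h1 := FL1_tst hFL0 r c hc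
  have h2 := FL1_tst hFL0 r (px c) hTB.1
  have key := FL1_gen nM hGLC.2.2.2.2.1 hGLC.2.2.2.2.2.2.2.2.2.2.2.1 (pk r c) (fun z => -pk r (px c) z) φ h1.1 h1.2 h2.1.neg h2.2.neg hφ ?_ g
  · refine key.congr_deriv ?_
    unfold Wf
    simp only [neg_mul, integral_neg]
  · intro z
    have hw : HasDerivAt (fun t : ℝ => ((nM (-t) • z : ℍ) : ℂ)) (-1) 0 := by
      have e : (fun t : ℝ => ((nM (-t) • z : ℍ) : ℂ)) = fun t : ℝ => (z : ℂ) + -(t : ℂ) := by
        funext t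
        rw [hGLC.2.2.2.2.2.2.2.2.1]
        push_cast
        ring
      rw [e]
      exact ((Complex.ofRealCLM.hasDerivAt (x := (0 : ℝ))).neg).const_add _
    have hk := FL1_pk r c hc.1 z (fun t => nM (-t) • z) (-1) (by
      rw [neg_zero, (FL1_inv nM hGLC.2.2.2.2.2.2.2.2.2.2.2.1 0).2, one_smul]) hw
    refine hk.congr_deriv ?_
    unfold pk px
    simp

end Pool.Agent.RS
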