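import Pool.Agent.helper29.RS.FL1

/-! Row FL2 of project RS (MP_07c750_an). -/

open scoped MatrixGroups ContDiff Topology UpperHalfPlane ComplexConjugate
open UpperHalfPlane MeasureTheory Filter Set

namespace Pool.Agent.RS

theorem FL2 (hGLC : GLC_stmt) (hFL0 : FL0_stmt) : FL2_stmt := by
  intro r c φ hc hφ g
  have hTB := hFL0.1 (1 / 4) c hc
  have h1 := FL1_tst hFL0 r c hc
  have h2 := FL1_tst hFL0 r (xm (px c)) (hFL0.1 (1 / 4) (px c) hTB.1).2.1
  have h3 := FL1_tst hFL0 r (QU.dY c) hTB.2.2.1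
  have hadd := hGLC.2.2.2.2.2.2.2.2.2.2.1
  have key := FL1_gen aM hGLC.2.2.2.1 hadd (pk r c)
    (fun z => (-((1 / 2 : ℂ) + (r : ℂ) * Complex.I) * pk r c z + -pk r (xm (px c)) z) + -pk r (QU.dY c) z) φ h1.1 h1.2
    (((continuous_const.mul h1.1).add h2.1.neg).add h3.1.neg) ((h1.2.mul_left.add h2.2.neg).add h3.2.neg) hφ ?_ g
  · refine key.congr_deriv ?_
    have hφg : Continuous (fun z : ℍ => φ (g • z)) := hφ.comp (continuous_const_smul g)
    have i1 : Integrable (fun z : ℍ => pk r c z * φ (g • z)) := (h1.1.mul hφg).integrable_of_hasCompactSupport h1.2.mul_right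
    have i2 : Integrable (fun z : ℍ => pk r (xm (px c)) z * φ (g • z)) := (h2.1.mul hφg).integrable_of_hasCompactSupport h2.2.mul_right
    have i3 : Integrable (fun z : ℍ => pk r (QU.dY c) z * φ (g • z)) := (h3.1.mul hφg).integrable_of_hasCompactSupport h3.2.mul_right
    unfold Wf
    have e : ∀ z : ℍ, ((-((1 / 2 : ℂ) + (r : ℂ) * Complex.I) * pk r c z + -pk r (xm (px c)) z) + -pk r (QU.dY c) z) * φ (g • z) =
        (-((1 / 2 : ℂ) + (r : ℂ) * Complex.I) * (pk r c z * φ (g • z)) - pk r (xm (px c)) z * φ (g • z)) - pk r (QU.dY c) z * φ (g • z) := by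
      intro z
      ring
    simp only [e]
    have i12 : Integrable (fun z : ℍ => -((1 / 2 : ℂ) + (r : ℂ) * Complex.I) * (pk r c z * φ (g • z)) - pk r (xm (px c)) z * φ (g • z)) :=
      (i1.const_mul _).sub i2
    rw [integral_sub i12 i3, integral_sub (i1.const_mul _) i2, integral_const_mul]
  · intro z
    have hw : HasDerivAt (fun t : ℝ => ((aM (-t) • z : ℍ) : ℂ)) (-(z : ℂ)) 0 := by
      have e : (fun t : ℝ => ((aM (-t) • z : ℍ) : ℂ)) = fun t : ℝ => ((Real.exp (-t) : ℝ) : ℂ) * (z : ℂ) := by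
        funext t
        rw [hGLC.2.2.2.2.2.2.2.1]
      rw [e]
      have h4 : HasDerivAt (fun t : ℝ => Real.exp (-t)) (-1) 0 := by
        have := (hasDerivAt_neg (0 : ℝ)).exp
        simpa using this
      have h5 := h4.ofReal_comp.mul_const (z : ℂ)
      refine h5.congr_deriv ?_
      simp
    have hk := FL1_pk r c hc.1 z (fun t => aM (-t) • z) (-(z : ℂ)) (by
      rw [neg_zero, (FL1_inv aM hadd 0).2, one_smul]) hw
    refine hk.congr_deriv ?_
    have hz : (z : ℂ) = (z.re : ℝ) • (1 : ℂ) + (z.im : ℝ) • Complex.I := by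
      apply Complex.ext <;> simp
    have hlin : fderiv ℝ (QU.onC c) (z : ℂ) (-(z : ℂ)) = -(((z.re : ℝ) : ℂ) * px c z + QU.dY c z) := by
      rw [map_neg]
      congr 1
      nth_rw 2 [hz]
      rw [map_add, map_smul, map_smul]
      unfold px QU.dY
      simp
    rw [hlin]
    unfold pk xm
    have him : ((-(z : ℂ)).im / z.im : ℝ) = -1 := by
      have : (-(z : ℂ)).im = -z.im := rfl
      rw [this]
      field_simp [z.im_pos.ne']
    rw [him]
    push_cast
    ring

end Pool.Agent.RS
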