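import Pool.Agent.helper29.RS.SpecK2
import Pool.Agent.helper62.QU.All

/-! Row GR2 of project RS (MP_07c750_an). -/

open scoped MatrixGroups ContDiff Topology UpperHalfPlane ComplexConjugate
open UpperHalfPlane MeasureTheory Filter Set

namespace Pool.Agent.RS

theorem GR2 (hFL0 : FL0_stmt) (hSGR : SGR_stmt) (hGBK : GBK_stmt) : GR2_stmt := by
  intro Γ F hΓ hF s φ hφ
  have hpk : ∀ (c : ℍ → ℂ) (r : ℝ), TB (1 / 4) c → Continuous (pk r c) ∧ HasCompactSupport (pk r c) := by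
    intro c r hc
    have hpk := hFL0.2.1 (1 / 4) r c hc
    exact ⟨((QU.A_CA1 ℂ).1 (pk r c)).1 ((QU.A_CA1 ℂ).2.1 (pk r c) 0 ∞ (by exact_mod_cast bot_le) hpk.1), hpk.2⟩
  have hφc : InvC Γ φ := ⟨((QU.A_CA1 ℂ).1 φ).1 ((QU.A_CA1 ℂ).2.1 φ 0 2 (by norm_num) hφ.1), hφ.2.1⟩
  have h1 : ∀ (c u : ℍ → ℂ) (r : ℝ), TB (1 / 4) c → InvC Γ u →
      iG F (fun g => Wf (pk r c) φ g * conj (Wf (pk r c) u g)) = (∫ z in F, φ z * conj (u z)) * ((bk (cc c) r s : ℝ) : ℂ) := by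
    intro c u r hc hu
    have h2 := hpk c r hc
    have h3 := (hSGR Γ F (-s) φ u hΓ hF hφ.1 hφ.2.1 (by
      intro z
      rw [hφ.2.2 z]
      congr 2
      ring) hu).2 (pk r c) (pk r c) h2.1 h2.2 h2.1 h2.2
    rw [hGBK c hc r s] at h3
    unfold iG
    rw [h3]
    ring
  refine ⟨h1, ?_⟩
  intro c r hc
  have h2 := h1 c φ r hc hφc
  have e1 : iG F (fun g => Wf (pk r c) φ g * conj (Wf (pk r c) φ g)) = ((qn F c r φ : ℝ) : ℂ) := by
    unfold iG qn iR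
    rw [← integral_complex_ofReal]
    refine integral_congr_ae (Eventually.of_forall fun g => ?_)
    show Wf (pk r c) φ g * conj (Wf (pk r c) φ g) = ((‖Wf (pk r c) φ g‖ ^ 2 : ℝ) : ℂ)
    rw [Complex.mul_conj, Complex.normSq_eq_norm_sq]
  have e2 : (∫ z in F, φ z * conj (φ z)) = ((nn F φ : ℝ) : ℂ) := by
    unfold nn
    rw [← integral_complex_ofReal]
    refine integral_congr_ae (Eventually.of_forall fun z => ?_)
    show φ z * conj (φ z) = ((‖φ z‖ ^ 2 : ℝ) : ℂ)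
    rw [Complex.mul_conj, Complex.normSq_eq_norm_sq]
  rw [e1, e2] at h2
  exact_mod_cast h2

end Pool.Agent.RS
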