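import Pool.Agent.helper29.RS.SpecK
import Pool.Agent.helper62.QU.All

open scoped MatrixGroups ContDiff Topology UpperHalfPlane ComplexConjugate
open UpperHalfPlane MeasureTheory Filter Set

namespace Pool.Agent.RS

/-- the denominator -/
noncomputable def OV2_D (p q x τ : ℝ) : ℝ := (p * x + q) ^ 2 + p ^ 2 * Real.exp (2 * τ)

theorem OV2_Dpos (p q x τ : ℝ) (h : p ≠ 0 ∨ q ≠ 0) : 0 < OV2_D p q x τ := by
  unfold OV2_D
  by_cases hp : p = 0
  · have hq : q ≠ 0 := by
      rcases h with h | h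
      · exact absurd hp h
      · exact h
    subst hp
    have : 0 < q ^ 2 := by positivity
    simpa using this
  · have h1 : 0 < p ^ 2 * Real.exp (2 * τ) := by positivity
    have h2 : 0 ≤ (p * x + q) ^ 2 := sq_nonneg _
    linarith

theorem OV2_row (h : SL(2, ℝ)) : h 1 0 ≠ 0 ∨ h 1 1 ≠ 0 := by
  by_contra hc
  push Not at hc
  have hd := h.det_coe
  rw [Matrix.det_fin_two, hc.1, hc.2] at hd
  simp at hd

theorem OV2_im (h : SL(2, ℝ)) (x τ : ℝ) : (h • pt x τ).im = Real.exp τ / OV2_D (h 1 0) (h 1 1) x τ := by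
  have e0 : (h • pt x τ).im = (((h : GL (Fin 2) ℝ)) • pt x τ).im := rfl
  rw [e0, UpperHalfPlane.im_smul_eq_div_normSq]
  have h1 : ((pt x τ : ℍ) : ℂ).re = x := rfl
  have h2 : ((pt x τ : ℍ) : ℂ).im = Real.exp τ := rfl
  have h3 : (pt x τ).im = Real.exp τ := rfl
  have e1 : Complex.normSq (denom (h : GL (Fin 2) ℝ) (pt x τ)) = OV2_D (h 1 0) (h 1 1) x τ := by
    unfold OV2_D
    rw [show denom (h : GL (Fin 2) ℝ) (pt x τ) = ((h 1 0 : ℝ) : ℂ) * ((pt x τ : ℍ) : ℂ) + ((h 1 1 : ℝ) : ℂ) from rfl]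
    rw [Complex.normSq_apply]
    simp only [Complex.add_re, Complex.mul_re, Complex.ofReal_re, Complex.ofReal_im, Complex.add_im, Complex.mul_im, h1, h2]
    rw [show 2 * τ = τ + τ by ring, Real.exp_add]
    ring
  rw [e1, h3]
  simp

/-- the phase -/
noncomputable def OV2_T (p q x τ : ℝ) : ℝ := 2 * τ - Real.log (OV2_D p q x τ)

theorem OV2_integrand (c : ℍ → ℂ) (r : ℝ) (h : SL(2, ℝ)) (x τ : ℝ) :
    ((Real.exp (-τ) : ℝ) : ℂ) * (pk r c (pt x τ) * pk r c (h • pt x τ)) =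
      c (pt x τ) * c (h • pt x τ) * (((((h 1 0 * x + h 1 1) ^ 2 + (h 1 0) ^ 2 * Real.exp (2 * τ)) ^ (-(1 / 2 : ℝ)) : ℝ)) : ℂ) *
        Complex.exp (((r * OV2_T (h 1 0) (h 1 1) x τ : ℝ) : ℂ) * Complex.I) := by
  have hD := OV2_Dpos (h 1 0) (h 1 1) x τ (OV2_row h)
  unfold pk
  rw [OV2_im]
  have h1 : (pt x τ).im = Real.exp τ := rfl
  rw [h1]
  have e1 : ((Real.exp τ : ℝ) : ℂ) ^ ((1 / 2 : ℂ) + (r : ℂ) * Complex.I) = Complex.exp (((1 / 2 : ℂ) + (r : ℂ) * Complex.I) * (τ : ℂ)) := by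
    rw [Complex.cpow_def_of_ne_zero (by exact_mod_cast (Real.exp_pos τ).ne'), ← Complex.ofReal_log (Real.exp_pos τ).le, Real.log_exp, mul_comm]
  have e2 : ((Real.exp τ / OV2_D (h 1 0) (h 1 1) x τ : ℝ) : ℂ) ^ ((1 / 2 : ℂ) + (r : ℂ) * Complex.I) =
      Complex.exp (((1 / 2 : ℂ) + (r : ℂ) * Complex.I) * ((τ - Real.log (OV2_D (h 1 0) (h 1 1) x τ) : ℝ) : ℂ)) := by
    have hpos : 0 < Real.exp τ / OV2_D (h 1 0) (h 1 1) x τ := by positivity
    rw [Complex.cpow_def_of_ne_zero (by exact_mod_cast hpos.ne'), ← Complex.ofReal_log hpos.le, Real.log_div (Real.exp_pos τ).ne' hD.ne', Real.log_exp, mul_comm]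
  have e3 : (((((h 1 0 * x + h 1 1) ^ 2 + (h 1 0) ^ 2 * Real.exp (2 * τ)) ^ (-(1 / 2 : ℝ)) : ℝ)) : ℂ) =
      Complex.exp (((-(1 / 2) * Real.log (OV2_D (h 1 0) (h 1 1) x τ) : ℝ)) : ℂ) := by
    rw [show (h 1 0 * x + h 1 1) ^ 2 + (h 1 0) ^ 2 * Real.exp (2 * τ) = OV2_D (h 1 0) (h 1 1) x τ from rfl,
      Real.rpow_def_of_pos hD, ← Complex.ofReal_exp]
    congr 2
    ring
  have e4 : ((Real.exp (-τ) : ℝ) : ℂ) = Complex.exp ((-τ : ℝ) : ℂ) := Complex.ofReal_exp _
  rw [e1, e2, e3, e4]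
  have key : Complex.exp ((-τ : ℝ) : ℂ) * (Complex.exp (((1 / 2 : ℂ) + (r : ℂ) * Complex.I) * (τ : ℂ)) *
      Complex.exp (((1 / 2 : ℂ) + (r : ℂ) * Complex.I) * ((τ - Real.log (OV2_D (h 1 0) (h 1 1) x τ) : ℝ) : ℂ))) =
      Complex.exp (((-(1 / 2) * Real.log (OV2_D (h 1 0) (h 1 1) x τ) : ℝ)) : ℂ) *
        Complex.exp (((r * OV2_T (h 1 0) (h 1 1) x τ : ℝ) : ℂ) * Complex.I) := by
    rw [← Complex.exp_add, ← Complex.exp_add, ← Complex.exp_add]
    congr 1
    unfold OV2_T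
    push_cast
    ring
  linear_combination (c (pt x τ) * c (h • pt x τ)) * key

theorem OV2_dtau (p q x τ : ℝ) (h : p ≠ 0 ∨ q ≠ 0) :
    HasDerivAt (fun τ => OV2_T p q x τ) (2 * (p * x + q) ^ 2 / OV2_D p q x τ) τ := by
  have hD := OV2_Dpos p q x τ h
  have h1 : HasDerivAt (fun τ => OV2_D p q x τ) (p ^ 2 * (Real.exp (2 * τ) * 2)) τ := by
    unfold OV2_D
    have h2 : HasDerivAt (fun τ : ℝ => 2 * τ) 2 τ := by
      simpa using (hasDerivAt_id τ).const_mul (2 : ℝ)
    exact ((h2.exp).const_mul (p ^ 2)).const_add _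
  have h3 : HasDerivAt (fun τ : ℝ => 2 * τ) 2 τ := by
    simpa using (hasDerivAt_id τ).const_mul (2 : ℝ)
  have h4 := h3.sub (h1.log hD.ne')
  refine h4.congr_deriv ?_
  field_simp
  unfold OV2_D
  ring

theorem OV2_dtau2 (p q x τ : ℝ) (h : p ≠ 0 ∨ q ≠ 0) :
    HasDerivAt (fun τ => 2 * (p * x + q) ^ 2 / OV2_D p q x τ)
      (-(4 * (p * x + q) ^ 2 * (p ^ 2 * Real.exp (2 * τ))) / OV2_D p q x τ ^ 2) τ := by
  have hD := OV2_Dpos p q x τ h
  have h1 : HasDerivAt (fun τ => OV2_D p q x τ) (p ^ 2 * (Real.exp (2 * τ) * 2)) τ := by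
    unfold OV2_D
    have h2 : HasDerivAt (fun τ : ℝ => 2 * τ) 2 τ := by
      simpa using (hasDerivAt_id τ).const_mul (2 : ℝ)
    exact ((h2.exp).const_mul (p ^ 2)).const_add _
  have h4 := (hasDerivAt_const τ (2 * (p * x + q) ^ 2)).div h1 hD.ne'
  refine h4.congr_deriv ?_
  congr 1
  ring

theorem OV2_dx (p q x τ : ℝ) (h : p ≠ 0 ∨ q ≠ 0) :
    HasDerivAt (fun x => OV2_T p q x τ) (-(2 * p * (p * x + q)) / OV2_D p q x τ) x := by
  have hD := OV2_Dpos p q x τ h
  have h0 : HasDerivAt (fun x : ℝ => p * x + q) p x := by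
    simpa using ((hasDerivAt_id x).const_mul p).add_const q
  have h1 : HasDerivAt (fun x => OV2_D p q x τ) (2 * (p * x + q) * p) x := by
    unfold OV2_D
    have := (h0.pow 2).add_const (p ^ 2 * Real.exp (2 * τ))
    refine this.congr_deriv ?_
    simp
  have h4 := (hasDerivAt_const x (2 * τ)).sub (h1.log hD.ne')
  refine h4.congr_deriv ?_
  ring

theorem OV2_dx2 (p q x τ : ℝ) (h : p ≠ 0 ∨ q ≠ 0) :
    HasDerivAt (fun x => -(2 * p * (p * x + q)) / OV2_D p q x τ)
      (-(2 * p ^ 2 * (p ^ 2 * Real.exp (2 * τ) - (p * x + q) ^ 2)) / OV2_D p q x τ ^ 2) x := by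
  have hD := OV2_Dpos p q x τ h
  have h0 : HasDerivAt (fun x : ℝ => p * x + q) p x := by
    simpa using ((hasDerivAt_id x).const_mul p).add_const q
  have h1 : HasDerivAt (fun x => OV2_D p q x τ) (2 * (p * x + q) * p) x := by
    unfold OV2_D
    have := (h0.pow 2).add_const (p ^ 2 * Real.exp (2 * τ))
    refine this.congr_deriv ?_
    simp
  have h2 : HasDerivAt (fun x : ℝ => -(2 * p * (p * x + q))) (-(2 * p * p)) x := (h0.const_mul (2 * p)).neg
  have h4 := h2.div h1 hD.ne'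
  refine h4.congr_deriv ?_
  congr 1
  unfold OV2_D
  ring

theorem OV2_smooth_tau (r p q x : ℝ) (h : p ≠ 0 ∨ q ≠ 0) : ContDiff ℝ 2 (fun τ => r * OV2_T p q x τ) := by
  unfold OV2_T
  refine contDiff_const.mul (ContDiff.sub (contDiff_const.mul contDiff_id) (ContDiff.log ?_ (fun τ => (OV2_Dpos p q x τ h).ne')))
  unfold OV2_D
  fun_prop

theorem OV2_smooth_x (r p q τ : ℝ) (h : p ≠ 0 ∨ q ≠ 0) : ContDiff ℝ 2 (fun x => r * OV2_T p q x τ) := by
  unfold OV2_T
  refine contDiff_const.mul (ContDiff.sub contDiff_const (ContDiff.log ?_ (fun x => (OV2_Dpos p q x τ h).ne')))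
  unfold OV2_D
  fun_prop

theorem OV2_caseA (hOIB : OIB_stmt) (K r p q x : ℝ) (a : ℝ → ℂ) (hK : 0 < K) (hr : 1 ≤ r) (hpq : p ≠ 0 ∨ q ≠ 0) (hp : |p| ≤ 3) (hq : |q| ≤ 3)
    (hx : |x| ≤ 1 / 64) (hv : 1 / 32 ≤ |p * x + q|) (ha : ContDiff ℝ 1 a) (ha1 : a (-(1 / 32)) = 0) (ha2 : a (1 / 32) = 0)
    (hb : ∀ τ, ‖a τ‖ ≤ K) (hb' : ∀ τ, ‖deriv a τ‖ ≤ K) :
    ‖∫ τ in (-(1 / 32) : ℝ)..(1 / 32), a τ * Complex.exp (((r * OV2_T p q x τ : ℝ) : ℂ) * Complex.I)‖ ≤ 10 ^ 8 * K / r := by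
  have hr0 : 0 < r := by linarith
  have hm : (0 : ℝ) < r * (1 / 10240) := by positivity
  have hd1 : ∀ τ, deriv (fun τ => r * OV2_T p q x τ) τ = r * (2 * (p * x + q) ^ 2 / OV2_D p q x τ) := fun τ =>
    ((OV2_dtau p q x τ hpq).const_mul r).deriv
  have hd2 : ∀ τ, deriv (deriv (fun τ => r * OV2_T p q x τ)) τ =
      r * (-(4 * (p * x + q) ^ 2 * (p ^ 2 * Real.exp (2 * τ))) / OV2_D p q x τ ^ 2) := by
    intro τ
    have : deriv (fun τ => r * OV2_T p q x τ) = fun τ => r * (2 * (p * x + q) ^ 2 / OV2_D p q x τ) := funext hd1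
    rw [this]
    exact ((OV2_dtau2 p q x τ hpq).const_mul r).deriv
  have key := hOIB a (fun τ => r * OV2_T p q x τ) (-(1 / 32)) (1 / 32) (r * (1 / 10240)) r K K (by norm_num) ha
    (OV2_smooth_tau r p q x hpq) ha1 ha2 hm ?_ ?_ (fun τ _ => hb τ) (fun τ _ => hb' τ)
  · refine key.trans ?_
    have e : (1 / 32 - -(1 / 32)) * (K / (r * (1 / 10240)) + K * r / (r * (1 / 10240)) ^ 2) =
        (1 / 16 * (10240 + 10240 ^ 2)) * K / r := by
      field_simp
      ring
    rw [e]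
    gcongr
    norm_num
  · intro τ hτ
    rw [hd1]
    have hD := OV2_Dpos p q x τ hpq
    have h1 : (1 / 32 : ℝ) ^ 2 ≤ (p * x + q) ^ 2 := by
      rw [← sq_abs (p * x + q)]
      gcongr
    have hx' := abs_le.1 hx
    have hp' := abs_le.1 hp
    have hq' := abs_le.1 hq
    have hpx : |p * x| ≤ 3 * (1 / 64) := by
      rw [abs_mul]
      gcongr
    have hpx' := abs_le.1 hpx
    have h2 : (p * x + q) ^ 2 ≤ 10 := by nlinarith
    have h3 : Real.exp (2 * τ) ≤ 10 / 9 := by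
      have h5 : 2 * τ ≤ 1 / 16 := by linarith [hτ.2]
      have h6 : Real.exp (2 * τ) ≤ Real.exp (1 / 16) := Real.exp_le_exp.2 h5
      have h7 : Real.exp (1 / 16) ≤ 10 / 9 := by
        have h8 : Real.exp (1 / 16) ≤ 1 / (1 - 1 / 16) := Real.exp_bound_div_one_sub_of_interval (by norm_num) (by norm_num)
        refine h8.trans (by norm_num)
      linarith
    have h4 : p ^ 2 ≤ 9 := by nlinarith
    have h9 : OV2_D p q x τ ≤ 20 := by
      unfold OV2_D
      have : p ^ 2 * Real.exp (2 * τ) ≤ 9 * (10 / 9) := by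
        gcongr
      linarith
    have h10 : (1 / 10240 : ℝ) ≤ 2 * (p * x + q) ^ 2 / OV2_D p q x τ := by
      rw [le_div_iff₀ hD]
      nlinarith
    rw [abs_of_nonneg (by positivity)]
    exact mul_le_mul_of_nonneg_left h10 hr0.le
  · intro τ hτ
    rw [hd2]
    have hD := OV2_Dpos p q x τ hpq
    have h1 : |-(4 * (p * x + q) ^ 2 * (p ^ 2 * Real.exp (2 * τ))) / OV2_D p q x τ ^ 2| ≤ 1 := by
      rw [abs_div, abs_neg, abs_of_nonneg (by positivity), abs_of_nonneg (by positivity), div_le_one (by positivity)]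
      unfold OV2_D
      nlinarith [sq_nonneg ((p * x + q) ^ 2 - p ^ 2 * Real.exp (2 * τ))]
    rw [abs_mul, abs_of_pos hr0]
    calc r * |-(4 * (p * x + q) ^ 2 * (p ^ 2 * Real.exp (2 * τ))) / OV2_D p q x τ ^ 2| ≤ r * 1 := by gcongr
      _ = r := by ring

theorem OV2_caseB (hVDC : VDC_stmt) (K r p q τ x1 : ℝ) (a : ℝ → ℂ) (hK : 0 < K) (hr : 1 ≤ r) (hpq : p ≠ 0 ∨ q ≠ 0) (hp : |p| ≤ 3)
    (hv : ∀ x, |x| ≤ 1 / 64 → |p * x + q| ≤ 1 / 8) (hτ : |τ| ≤ 1 / 64) (hx1 : |x1| ≤ 1 / 64) (hD1 : 31 / 32 ≤ OV2_D p q x1 τ)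
    (hD2 : OV2_D p q x1 τ ≤ 32 / 31)
    (ha : ContDiff ℝ 1 a) (ha2 : a (1 / 32) = 0) (hb' : ∀ x, ‖deriv a x‖ ≤ K) :
    ‖∫ x in (-(1 / 32) : ℝ)..(1 / 32), a x * Complex.exp (((r * OV2_T p q x τ : ℝ) : ℂ) * Complex.I)‖ ≤ K / Real.sqrt r := by
  have hr0 : 0 < r := by linarith
  have hd1 : ∀ x, deriv (fun x => r * OV2_T p q x τ) x = r * (-(2 * p * (p * x + q)) / OV2_D p q x τ) := fun x =>
    ((OV2_dx p q x τ hpq).const_mul r).deriv
  have hd2 : ∀ x, deriv (deriv (fun x => r * OV2_T p q x τ)) x =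
      r * (-(2 * p ^ 2 * (p ^ 2 * Real.exp (2 * τ) - (p * x + q) ^ 2)) / OV2_D p q x τ ^ 2) := by
    intro x
    have : deriv (fun x => r * OV2_T p q x τ) = fun x => r * (-(2 * p * (p * x + q)) / OV2_D p q x τ) := funext hd1
    rw [this]
    exact ((OV2_dx2 p q x τ hpq).const_mul r).deriv
  have key := hVDC a (fun x => r * OV2_T p q x τ) (-(1 / 32)) (1 / 32) r K (by norm_num) ha
    (OV2_smooth_x r p q τ hpq) ha2 hr0 (Or.inr ?_) (fun x _ => hb' x)
  · refine key.trans ?_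
    have : 8 * (1 / 32 - -(1 / 32)) * K / Real.sqrt r = (1 / 2) * (K / Real.sqrt r) := by ring
    rw [this]
    have h0 : 0 ≤ K / Real.sqrt r := by positivity
    linarith
  · intro x hx
    rw [hd2]
    have hD := OV2_Dpos p q x τ hpq
    have hp' := abs_le.1 hp
    have hx1' := abs_le.1 hx1
    have hvx1 := abs_le.1 (hv x1 hx1)
    set E := p ^ 2 * Real.exp (2 * τ) with hE
    have hE1 : OV2_D p q x1 τ = (p * x1 + q) ^ 2 + E := rfl
    have hEl : 15 / 16 ≤ E := by nlinarith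
    have hEu : E ≤ 32 / 31 := by nlinarith [sq_nonneg (p * x1 + q)]
    have hv2 : |p * x + q| ≤ 3 / 16 := by
      by_cases hxx : |x| ≤ 1 / 64
      · exact (hv x hxx).trans (by norm_num)
      · have h0 : |p * (x - 1 / 64)| ≤ 3 * |x - 1 / 64| := by
          rw [abs_mul]
          gcongr
        have h0' : |p * (x + 1 / 64)| ≤ 3 * |x + 1 / 64| := by
          rw [abs_mul]
          gcongr
        have g1 := abs_le.1 (hv (1 / 64) (by rw [abs_of_pos] <;> norm_num))
        have g2 := abs_le.1 (hv (-(1 / 64)) (by rw [abs_neg, abs_of_pos] <;> norm_num))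
        rcases le_total 0 x with h | h
        · rw [abs_of_nonneg h] at hxx
          have : |x - 1 / 64| ≤ 1 / 64 := by
            rw [abs_le]
            constructor <;> linarith [hx.2]
          have h3 := abs_le.1 (h0.trans (mul_le_mul_of_nonneg_left this (by norm_num)))
          rw [abs_le]
          constructor <;> linarith [h3.1, h3.2, g1.1, g1.2]
        · rw [abs_of_nonpos h] at hxx
          have : |x + 1 / 64| ≤ 1 / 64 := by
            rw [abs_le]
            constructor <;> linarith [hx.1]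
          have h3 := abs_le.1 (h0'.trans (mul_le_mul_of_nonneg_left this (by norm_num)))
          rw [abs_le]
          constructor <;> linarith [h3.1, h3.2, g2.1, g2.2]
    have hv3 : (p * x + q) ^ 2 ≤ (3 / 16) ^ 2 := by
      rw [← sq_abs (p * x + q)]
      gcongr
    have hDD : OV2_D p q x τ = (p * x + q) ^ 2 + E := rfl
    have hDu : OV2_D p q x τ ≤ 11 / 10 := by
      rw [hDD]
      nlinarith
    have hexp : Real.exp (2 * τ) ≤ 32 / 31 := by
      have h5 : 2 * τ ≤ 1 / 32 := by linarith [(abs_le.1 hτ).2]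
      have h6 : Real.exp (2 * τ) ≤ Real.exp (1 / 32) := Real.exp_le_exp.2 h5
      have h8 : Real.exp (1 / 32) ≤ 1 / (1 - 1 / 32) := Real.exp_bound_div_one_sub_of_interval (by norm_num) (by norm_num)
      refine h6.trans (h8.trans (by norm_num))
    have hp2 : 9 / 10 ≤ p ^ 2 := by
      have : E ≤ p ^ 2 * (32 / 31) := by
        rw [hE]
        gcongr
      nlinarith
    have h10 : (1 : ℝ) ≤ 2 * p ^ 2 * (E - (p * x + q) ^ 2) / OV2_D p q x τ ^ 2 := by
      rw [le_div_iff₀ (by positivity)]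
      have h11 : OV2_D p q x τ ^ 2 ≤ (11 / 10) ^ 2 := by
        gcongr
      have h12 : 9 / 10 ≤ E - (p * x + q) ^ 2 := by nlinarith
      nlinarith [mul_le_mul hp2 h12 (by norm_num) (by positivity)]
    have h13 : -(2 * p ^ 2 * (E - (p * x + q) ^ 2)) / OV2_D p q x τ ^ 2 = -(2 * p ^ 2 * (E - (p * x + q) ^ 2) / OV2_D p q x τ ^ 2) := by
      ring
    rw [h13]
    nlinarith

theorem OV2_c0 (c : ℍ → ℂ) (hc : TB (1 / 64) c) (x τ : ℝ) (h : ¬ (|x| ≤ 1 / 64 ∧ |τ| ≤ 1 / 64)) : c (pt x τ) = 0 := by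
  by_contra h0
  apply h
  have := hc.2 (pt x τ) h0
  have h1 : (pt x τ).re = x := rfl
  have h2 : (pt x τ).im = Real.exp τ := rfl
  rw [h1, h2, Real.log_exp] at this
  exact this

theorem OV2_outer (H : ℝ → ℂ) (B : ℝ) (h0 : ∀ τ, ¬ |τ| ≤ 1 / 64 → H τ = 0) (hB : ∀ τ, |τ| ≤ 1 / 64 → ‖H τ‖ ≤ B) (hB0 : 0 ≤ B) :
    ‖∫ τ, H τ‖ ≤ B := by
  have hs : Function.support H ⊆ Ioc (-(1 / 32)) (1 / 32) := by
    intro τ hτ
    have h1 : |τ| ≤ 1 / 64 := by
      by_contra h
      exact hτ (h0 τ h)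
    have h2 := abs_le.1 h1
    constructor <;> linarith
  rw [← intervalIntegral.integral_eq_integral_of_support_subset hs]
  have h3 : ∀ τ ∈ Set.uIoc (-(1 / 32) : ℝ) (1 / 32), ‖H τ‖ ≤ B := by
    intro τ _
    by_cases h : |τ| ≤ 1 / 64
    · exact hB τ h
    · rw [h0 τ h, norm_zero]
      exact hB0
  refine (intervalIntegral.norm_integral_le_of_norm_le_const h3).trans ?_
  rw [show |(1 / 32 : ℝ) - -(1 / 32)| = 1 / 16 by rw [abs_of_pos] <;> norm_num]
  linarith

theorem OV2_fin (hOIB : OIB_stmt) (hVDC : VDC_stmt) (hCV1 : CV1_stmt) (hFL0 : FL0_stmt) (c : ℍ → ℂ) (hc : TB (1 / 64) c) (K : ℝ) (hK : 0 < K)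
    (h : SL(2, ℝ)) (r : ℝ) (hr : 1 ≤ r) (hex : ∃ z : ℍ, c z ≠ 0 ∧ c (h • z) ≠ 0)
    (h3 : ∀ i j, |h i j| ≤ 3)
    (hA : ContDiff ℝ 1 (fun p : ℝ × ℝ => c (pt p.1 p.2) * c (h • pt p.1 p.2) *
      (((((h 1 0 * p.1 + h 1 1) ^ 2 + (h 1 0) ^ 2 * Real.exp (2 * p.2)) ^ (-(1 / 2 : ℝ)) : ℝ)) : ℂ)))
    (hb : ∀ x τ : ℝ, ‖fderiv ℝ (fun p : ℝ × ℝ => c (pt p.1 p.2) * c (h • pt p.1 p.2) *
        (((((h 1 0 * p.1 + h 1 1) ^ 2 + (h 1 0) ^ 2 * Real.exp (2 * p.2)) ^ (-(1 / 2 : ℝ)) : ℝ)) : ℂ)) (x, τ)‖ ≤ K ∧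
      ‖c (pt x τ) * c (h • pt x τ) *
        (((((h 1 0 * x + h 1 1) ^ 2 + (h 1 0) ^ 2 * Real.exp (2 * τ)) ^ (-(1 / 2 : ℝ)) : ℝ)) : ℂ)‖ ≤ K) :
    ‖∫ z : ℍ, pk r c z * pk r c (h • z)‖ ≤ 10 ^ 8 * K / Real.sqrt r := by
  have hr0 : 0 < r := by linarith
  set p := h 1 0 with hp
  set q := h 1 1 with hq
  have hpq : p ≠ 0 ∨ q ≠ 0 := OV2_row h
  set A : ℝ × ℝ → ℂ := fun P : ℝ × ℝ => c (pt P.1 P.2) * c (h • pt P.1 P.2) *
      (((((p * P.1 + q) ^ 2 + p ^ 2 * Real.exp (2 * P.2)) ^ (-(1 / 2 : ℝ)) : ℝ)) : ℂ) with hAdef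
  have hTc : ContDiff ℝ 2 (fun P : ℝ × ℝ => r * OV2_T p q P.1 P.2) := by
    unfold OV2_T
    refine contDiff_const.mul (ContDiff.sub (contDiff_const.mul contDiff_snd) (ContDiff.log ?_ (fun P => (OV2_Dpos p q P.1 P.2 hpq).ne')))
    unfold OV2_D
    fun_prop
  set G : ℝ → ℝ → ℂ := fun x τ => A (x, τ) * Complex.exp (((r * OV2_T p q x τ : ℝ) : ℂ) * Complex.I) with hG
  have hGc : Continuous (fun P : ℝ × ℝ => G P.1 P.2) := by
    have h1 : Continuous (fun P : ℝ × ℝ => A (P.1, P.2)) := hA.continuous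
    have h2 : Continuous (fun P : ℝ × ℝ => r * OV2_T p q P.1 P.2) := hTc.continuous
    exact h1.mul (Complex.continuous_exp.comp ((Complex.continuous_ofReal.comp h2).mul continuous_const))
  have hG0 : ∀ x τ, ¬ (|x| ≤ 1 / 64 ∧ |τ| ≤ 1 / 64) → G x τ = 0 := by
    intro x τ hx
    simp only [hG, hAdef]
    rw [OV2_c0 c hc x τ hx]
    ring
  have hTB := hFL0.1 (1 / 64) c hc
  have hcc : Continuous c := hTB.2.2.2.2.2.2
  have hcs : HasCompactSupport c := hTB.2.2.2.2.2.1
  have hpk := hFL0.2.1 (1 / 64) r c hc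
  have hpkc : Continuous (pk r c) := by
    have := (QU.A_CA1 ℂ).1 (pk r c)
    exact this.1 ((QU.A_CA1 ℂ).2.1 (pk r c) 0 ∞ (by exact_mod_cast bot_le) hpk.1)
  have hfc : Continuous (fun z : ℍ => pk r c z * pk r c (h • z)) := hpkc.mul (hpkc.comp (continuous_const_smul h))
  have hfs : HasCompactSupport (fun z : ℍ => pk r c z * pk r c (h • z)) := hpk.2.mul_right
  have e1 : ∫ z : ℍ, pk r c z * pk r c (h • z) = ∫ τ : ℝ, ∫ x : ℝ, G x τ := by
    rw [hCV1.1 _ hfc hfs]
    refine integral_congr_ae (Eventually.of_forall fun τ => ?_)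
    refine integral_congr_ae (Eventually.of_forall fun x => ?_)
    simp only [hG, hAdef]
    exact OV2_integrand c r h x τ
  have hGcs : HasCompactSupport (Function.uncurry G) := by
    refine HasCompactSupport.intro (K := Icc (-(1 / 64) : ℝ) (1 / 64) ×ˢ Icc (-(1 / 64) : ℝ) (1 / 64)) (isCompact_Icc.prod isCompact_Icc) ?_
    rintro ⟨x, τ⟩ hx
    apply hG0
    intro hh
    apply hx
    exact ⟨abs_le.1 hh.1, abs_le.1 hh.2⟩
  have hsq : (1 : ℝ) ≤ Real.sqrt r := by
    rw [show (1 : ℝ) = Real.sqrt 1 by simp]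
    exact Real.sqrt_le_sqrt hr
  have hsq2 : Real.sqrt r * Real.sqrt r = r := Real.mul_self_sqrt hr0.le
  have hsr : Real.sqrt r ≤ r := by nlinarith
  rw [e1]
  by_cases hcase : ∃ x0 : ℝ, |x0| ≤ 1 / 64 ∧ 1 / 8 < |p * x0 + q|
  · obtain ⟨x0, hx0, hx0v⟩ := hcase
    have hswap : ∫ τ : ℝ, ∫ x : ℝ, G x τ = ∫ x : ℝ, ∫ τ : ℝ, G x τ :=
      (integral_integral_swap_of_hasCompactSupport hGc hGcs).symm
    rw [hswap]
    have hv : ∀ x, |x| ≤ 1 / 64 → 1 / 32 ≤ |p * x + q| := by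
      intro x hx
      have hh3 : |p| ≤ 3 := h3 1 0
      have h4 : |p * (x0 - x)| ≤ 3 * (1 / 32) := by
        rw [abs_mul]
        have h5 : |x0 - x| ≤ 1 / 32 := by
          have h6 := abs_le.1 hx
          have h7 := abs_le.1 hx0
          rw [abs_le]
          constructor <;> linarith
        gcongr
      have h8 : |p * x0 + q| ≤ |p * x + q| + |p * (x0 - x)| := by
        have := abs_add_le (p * x + q) (p * (x0 - x))
        rw [show p * x + q + p * (x0 - x) = p * x0 + q by ring] at this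
        exact this
      linarith
    have hB : ‖∫ x : ℝ, ∫ τ : ℝ, G x τ‖ ≤ 10 ^ 8 * K / r := by
      refine OV2_outer _ _ ?_ ?_ (by positivity)
      · intro x hx
        have : ∀ τ, G x τ = 0 := fun τ => hG0 x τ (fun hh => hx hh.1)
        simp [this]
      · intro x hx
        have hs : Function.support (fun τ => G x τ) ⊆ Ioc (-(1 / 32)) (1 / 32) := by
          intro τ hτ
          have h1 : |τ| ≤ 1 / 64 := by
            by_contra hcon
            exact hτ (hG0 x τ (fun hh => hcon hh.2))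
          have h2 := abs_le.1 h1
          constructor <;> linarith
        rw [← intervalIntegral.integral_eq_integral_of_support_subset hs]
        have hline : ContDiff ℝ 1 (fun τ : ℝ => A (x, τ)) := hA.comp (contDiff_const.prodMk contDiff_id)
        refine OV2_caseA hOIB K r p q x (fun τ => A (x, τ)) hK hr hpq (h3 1 0) (h3 1 1) hx (hv x hx) hline ?_ ?_ (fun τ => (hb x τ).2) ?_
        · show A (x, -(1 / 32)) = 0
          simp only [hAdef]
          rw [OV2_c0 c hc x (-(1 / 32)) (fun hh => by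
            have := (abs_le.1 hh.2).1
            norm_num at this)]
          ring
        · show A (x, 1 / 32) = 0
          simp only [hAdef]
          rw [OV2_c0 c hc x (1 / 32) (fun hh => by
            have := (abs_le.1 hh.2).2
            norm_num at this)]
          ring
        · intro τ
          have hd : HasFDerivAt A (fderiv ℝ A (x, τ)) (x, τ) := (hA.differentiable (by norm_num) (x, τ)).hasFDerivAt
          have hl : HasDerivAt (fun τ : ℝ => ((x, τ) : ℝ × ℝ)) ((0, 1) : ℝ × ℝ) τ :=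
            (hasDerivAt_const τ x).prodMk (hasDerivAt_id τ)
          have hcomp := hd.comp_hasDerivAt τ hl
          have he : deriv (fun τ => A (x, τ)) τ = fderiv ℝ A (x, τ) (0, 1) := hcomp.deriv
          rw [he]
          refine ((fderiv ℝ A (x, τ)).le_opNorm _).trans ?_
          have hn : ‖((0, 1) : ℝ × ℝ)‖ = 1 := by simp [Prod.norm_def]
          rw [hn, mul_one]
          exact (hb x τ).1
    refine hB.trans ?_
    gcongr
  · push Not at hcase
    have hB : ‖∫ τ : ℝ, ∫ x : ℝ, G x τ‖ ≤ K / Real.sqrt r := by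
      refine OV2_outer _ _ ?_ ?_ (by positivity)
      · intro τ hτ
        have : ∀ x, G x τ = 0 := fun x => hG0 x τ (fun hh => hτ hh.2)
        simp [this]
      · intro τ hτ
        by_cases hne : ∃ x1, A (x1, τ) ≠ 0
        · obtain ⟨x1, hx1⟩ := hne
          have hc1 : c (pt x1 τ) ≠ 0 := by
            intro h0
            apply hx1
            simp only [hAdef]
            rw [h0]
            ring
          have hc2 : c (h • pt x1 τ) ≠ 0 := by
            intro h0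
            apply hx1
            simp only [hAdef]
            rw [h0]
            ring
          have hx1a : |x1| ≤ 1 / 64 := by
            have := (hc.2 _ hc1).1
            exact this
          have him := (hc.2 _ hc2).2
          rw [OV2_im] at him
          have hD := OV2_Dpos p q x1 τ hpq
          rw [Real.log_div (Real.exp_pos τ).ne' hD.ne', Real.log_exp] at him
          have hlog : |Real.log (OV2_D p q x1 τ)| ≤ 1 / 32 := by
            have h6 := abs_le.1 him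
            have h7 := abs_le.1 hτ
            rw [abs_le]
            constructor
            · have := h6.2
              have := h7.1
              linarith
            · have := h6.1
              have := h7.2
              linarith
          have hlog' := abs_le.1 hlog
          have hDl : 31 / 32 ≤ OV2_D p q x1 τ := by
            have h8 : Real.exp (-(1 / 32)) ≤ OV2_D p q x1 τ := by
              rw [← Real.le_log_iff_exp_le hD]
              exact hlog'.1
            have h9 : (31 / 32 : ℝ) ≤ Real.exp (-(1 / 32)) := by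
              have := Real.add_one_le_exp (-(1 / 32) : ℝ)
              linarith
            linarith
          have hDu : OV2_D p q x1 τ ≤ 32 / 31 := by
            have h8 : OV2_D p q x1 τ ≤ Real.exp (1 / 32) := by
              rw [← Real.log_le_iff_le_exp hD]
              exact hlog'.2
            have h9 : Real.exp (1 / 32) ≤ 1 / (1 - 1 / 32) := Real.exp_bound_div_one_sub_of_interval (by norm_num) (by norm_num)
            refine h8.trans (h9.trans (by norm_num))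
          have hs : Function.support (fun x => G x τ) ⊆ Ioc (-(1 / 32)) (1 / 32) := by
            intro x hx
            have h1 : |x| ≤ 1 / 64 := by
              by_contra hcon
              exact hx (hG0 x τ (fun hh => hcon hh.1))
            have h2 := abs_le.1 h1
            constructor <;> linarith
          rw [← intervalIntegral.integral_eq_integral_of_support_subset hs]
          have hline : ContDiff ℝ 1 (fun x : ℝ => A (x, τ)) := hA.comp (contDiff_id.prodMk contDiff_const)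
          refine OV2_caseB hVDC K r p q τ x1 (fun x => A (x, τ)) hK hr hpq (h3 1 0) hcase hτ hx1a hDl hDu hline ?_ ?_
          · show A (1 / 32, τ) = 0
            simp only [hAdef]
            rw [OV2_c0 c hc (1 / 32) τ (fun hh => by
              have := (abs_le.1 hh.1).2
              norm_num at this)]
            ring
          · intro x
            have hd : HasFDerivAt A (fderiv ℝ A (x, τ)) (x, τ) := (hA.differentiable (by norm_num) (x, τ)).hasFDerivAt
            have hl : HasDerivAt (fun x : ℝ => ((x, τ) : ℝ × ℝ)) ((1, 0) : ℝ × ℝ) x :=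
              (hasDerivAt_id x).prodMk (hasDerivAt_const x τ)
            have hcomp := hd.comp_hasDerivAt x hl
            have he : deriv (fun x => A (x, τ)) x = fderiv ℝ A (x, τ) (1, 0) := hcomp.deriv
            rw [he]
            refine ((fderiv ℝ A (x, τ)).le_opNorm _).trans ?_
            have hn : ‖((1, 0) : ℝ × ℝ)‖ = 1 := by simp [Prod.norm_def]
            rw [hn, mul_one]
            exact (hb x τ).1
        · push Not at hne
          have : ∀ x, G x τ = 0 := by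
            intro x
            simp only [hG]
            rw [hne x]
            ring
          simp only [this, integral_zero, norm_zero]
          positivity
    refine hB.trans ?_
    have h0 : 0 ≤ K / Real.sqrt r := by positivity
    have h1 : 10 ^ 8 * K / Real.sqrt r = 10 ^ 8 * (K / Real.sqrt r) := by ring
    rw [h1]
    linarith

theorem OV2 (hOIB : OIB_stmt) (hVDC : VDC_stmt) (hCV1 : CV1_stmt) (hFL0 : FL0_stmt) (hOV1 : OV1_stmt) : OV2_stmt := by
  intro c hc
  obtain ⟨K, hK, hOV⟩ := hOV1 c hc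
  refine ⟨10 ^ 8 * K, by positivity, ?_⟩
  intro r g g' hr
  have hinv := QU.A_INV.2.2.2.1 ℂ g (fun z => pk r c (g⁻¹ • z) * pk r c (g'⁻¹ • z))
  rw [← hinv]
  have e : ∀ z : ℍ, pk r c (g⁻¹ • g • z) * pk r c (g'⁻¹ • g • z) = pk r c z * pk r c ((g'⁻¹ * g) • z) := by
    intro z
    rw [inv_smul_smul, mul_smul]
  simp only [e]
  by_cases hex : ∃ z : ℍ, c z ≠ 0 ∧ c ((g'⁻¹ * g) • z) ≠ 0
  · obtain ⟨h1, h2, h3⟩ := hOV (g'⁻¹ * g) hex
    exact OV2_fin hOIB hVDC hCV1 hFL0 c hc K hK (g'⁻¹ * g) r hr hex h1 h2 h3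
  · push Not at hex
    have : ∀ z : ℍ, pk r c z * pk r c ((g'⁻¹ * g) • z) = 0 := by
      intro z
      unfold pk
      by_cases hz : c z = 0
      · rw [hz]
        ring
      · rw [hex z hz]
        ring
    simp only [this, integral_zero, norm_zero]
    positivity

end Pool.Agent.RS
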