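import Pool.Agent.helper62.RS.SpecG

/-!
# MP_07c750: rare scars, block K (packets): boundary integrals, spherical function, frame bounds, overlap, invariance

Rows `rs:X`: prove `X_stmt` in `Pool/Agent/<seat>/RS/X.lean`, `import Pool.Agent.helper29.RS.SpecK`, namespace `Pool.Agent.RS`, auxiliary
lemmas prefixed `X_`. All rows of QU are proved: `import Pool.Agent.helper62.QU.All` gives `QU.A_INV`, `QU.A_CA1`, `QU.A_GRN`, `QU.A_DOB`, ...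
-/

open scoped MatrixGroups ContDiff Topology UpperHalfPlane ComplexConjugate
open UpperHalfPlane MeasureTheory Filter Set

namespace Pool.Agent.RS

noncomputable section

/-! ## Notions -/

/-- smooth functions supported in the box `|x| ≤ w`, `|log y| ≤ w` -/
def TB (w : ℝ) (c : ℍ → ℂ) : Prop := QU.CD ∞ c ∧ ∀ z : ℍ, c z ≠ 0 → |z.re| ≤ w ∧ |Real.log z.im| ≤ w

/-- smooth functions on the line supported in `[-w, w]` -/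
def SB (w : ℝ) (a : ℝ → ℝ) : Prop := ContDiff ℝ ∞ a ∧ ∀ x, a x ≠ 0 → |x| ≤ w

/-- `∂c/∂x` -/
def px (c : ℍ → ℂ) (z : ℍ) : ℂ := fderiv ℝ (QU.onC c) (z : ℂ) 1

/-- `x c` -/
def xm (c : ℍ → ℂ) (z : ℍ) : ℂ := ((z.re : ℝ) : ℂ) * c z

/-- the Killing field `(x² - y²) ∂_x + 2 x y ∂_y` -/
def kW (c : ℍ → ℂ) (z : ℍ) : ℂ := ((z.re ^ 2 - z.im ^ 2 : ℝ) : ℂ) * px c z + ((2 * z.re : ℝ) : ℂ) * QU.dY c z

/-- the product function `β(x) α(log y)` -/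
def pc (β α : ℝ → ℝ) (z : ℍ) : ℂ := ((β z.re * α (Real.log z.im) : ℝ) : ℂ)

/-- eigenfunctions of class `C²` on `Γ \ ℍ` with eigenvalue `lam` -/
def EigL (Γ : Subgroup SL(2, ℝ)) (lam : ℝ) (φ : ℍ → ℂ) : Prop :=
  QU.CD 2 φ ∧ (∀ (γ : Γ) (z : ℍ), φ (γ • z) = φ z) ∧ ∀ z, QU.lap φ z = (lam : ℂ) * φ z

/-- `∫_F |φ|²` -/
def nn (F : Set ℍ) (φ : ℍ → ℂ) : ℝ := ∫ z in F, ‖φ z‖ ^ 2

/-- `∫_{Γ\G} |F_c|²`, `F_c(g) = ∫ c(z) y^{1/2+ir} φ(gz) dz` -/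
def qn (F : Set ℍ) (c : ℍ → ℂ) (r : ℝ) (φ : ℍ → ℂ) : ℝ := iR F (fun g => ‖Wf (pk r c) φ g‖ ^ 2)

/-- the point `x + i e^τ` -/
def pt (x τ : ℝ) : ℍ := ⟨⟨x, Real.exp τ⟩, Real.exp_pos τ⟩

/-- `c` in the coordinates `(x, τ)` -/
def cc (c : ℍ → ℂ) (x τ : ℝ) : ℂ := c (pt x τ)

/-- smooth functions of `(x, τ)` supported in `|x|, |τ| ≤ 1/4` -/
def CB (C : ℝ → ℝ → ℂ) : Prop :=
  ContDiff ℝ ∞ (fun p : ℝ × ℝ => C p.1 p.2) ∧ ∀ x τ, C x τ ≠ 0 → |x| ≤ 1 / 4 ∧ |τ| ≤ 1 / 4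

/-- the boundary integral `I(t) = ∬ C(x,τ) e^{i(r-s)τ} ((x-t)² + e^{2τ})^{-1/2+is} dx dτ` -/
def bI (C : ℝ → ℝ → ℂ) (r s t : ℝ) : ℂ := ∫ τ : ℝ, ∫ x : ℝ,
  C x τ * Complex.exp ((((r - s) * τ : ℝ) : ℂ) * Complex.I) *
    ((((x - t) ^ 2 + Real.exp (2 * τ) : ℝ)) : ℂ) ^ (-(1 / 2 : ℂ) + (s : ℂ) * Complex.I)

/-- `κ_C(s; r) = (1/π) ∫ |I(t)|² dt` -/
def bk (C : ℝ → ℝ → ℂ) (r s : ℝ) : ℝ := (1 / Real.pi) * ∫ t : ℝ, ‖bI C r s t‖ ^ 2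

/-- the Fourier transform of `C` -/
def bF (C : ℝ → ℝ → ℂ) (k σ : ℝ) : ℂ := ∫ τ : ℝ, ∫ x : ℝ,
  C x τ * Complex.exp (-(((k * x + σ * τ : ℝ)) : ℂ) * Complex.I)

/-- the Fourier transform of a real function -/
def hF (a : ℝ → ℝ) (σ : ℝ) : ℂ := ∫ τ : ℝ, (a τ : ℂ) * Complex.exp (-((σ * τ : ℝ) : ℂ) * Complex.I)

/-- `(x, τ) ↦ β(x) α(τ)` -/
def pr (β α : ℝ → ℝ) (x τ : ℝ) : ℂ := ((β x * α τ : ℝ) : ℂ)

/-- the Poisson kernel `y / ((x-t)² + y²)` -/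
def Pk (z : ℍ) (t : ℝ) : ℝ := z.im / ((z.re - t) ^ 2 + z.im ^ 2)

/-- the spherical function as a function of two points -/
def Ph (s : ℝ) (z z' : ℍ) : ℂ := ((1 / Real.pi : ℝ) : ℂ) * ∫ t : ℝ,
  ((Pk z t : ℝ) : ℂ) ^ ((1 / 2 : ℂ) - (s : ℂ) * Complex.I) *
    ((Pk z' t : ℝ) : ℂ) ^ ((1 / 2 : ℂ) + (s : ℂ) * Complex.I)

/-! ## A. Oscillatory integrals in one variable (Mathlib only) -/

/-- **Row OIB** (one integration by parts). `a e^{iθ} = (a/(iθ')) (e^{iθ})'`, `∫ = -∫ (a/(iθ'))' e^{iθ}` (the boundary terms vanish),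
`|(a/θ')'| ≤ |a'|/m + |a||θ''|/m²`. (`θ' ≠ 0` on `[A,B]`; `intervalIntegral.integral_mul_deriv_eq_deriv_mul` or the
fundamental theorem for `(a/(iθ')) e^{iθ}` on `[A,B]`.) -/
def OIB_stmt : Prop := ∀ (a : ℝ → ℂ) (θ : ℝ → ℝ) (A B m L a0 a1 : ℝ), A ≤ B → ContDiff ℝ 1 a → ContDiff ℝ 2 θ →
  a A = 0 → a B = 0 → 0 < m → (∀ x ∈ Icc A B, m ≤ |deriv θ x|) → (∀ x ∈ Icc A B, |deriv (deriv θ) x| ≤ L) →
  (∀ x ∈ Icc A B, ‖a x‖ ≤ a0) → (∀ x ∈ Icc A B, ‖deriv a x‖ ≤ a1) →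
    ‖∫ x in A..B, a x * Complex.exp ((θ x : ℂ) * Complex.I)‖ ≤ (B - A) * (a1 / m + a0 * L / m ^ 2)

/-- **Row VDC** (van der Corput). (1) if `θ'` is monotone and `≥ κ > 0` (or `≤ -κ`) on `[p,q]` then `|∫_p^q e^{iθ}| ≤ 3/κ`: by parts, boundary terms
`≤ 2/κ`, `∫ |(1/θ')'| = |1/θ'(q) - 1/θ'(p)| ≤ 1/κ`. (2) if `θ'' ≥ m` on `[A,B]`: `θ'` is increasing, with `κ = √m` the set `{|θ'| < κ}` is an interval
of length `≤ 2/√m`, outside use (1): `|∫_A^B e^{iθ}| ≤ 8/√m`, the same for all subintervals. (3) `∫ a e^{iθ} = -∫_A^B a'(x) (∫_A^x e^{iθ}) dx`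
since `a B = 0`. (Case `θ'' ≤ -m`: complex conjugation.) -/
def VDC_stmt : Prop := ∀ (a : ℝ → ℂ) (θ : ℝ → ℝ) (A B m a1 : ℝ), A ≤ B → ContDiff ℝ 1 a → ContDiff ℝ 2 θ →
  a B = 0 → 0 < m → ((∀ x ∈ Icc A B, m ≤ deriv (deriv θ) x) ∨ (∀ x ∈ Icc A B, deriv (deriv θ) x ≤ -m)) →
  (∀ x ∈ Icc A B, ‖deriv a x‖ ≤ a1) →
    ‖∫ x in A..B, a x * Complex.exp ((θ x : ℂ) * Complex.I)‖ ≤ 8 * (B - A) * a1 / Real.sqrt m

/-! ## B. The boundary integral (no group) -/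

/-- **Row BKA** (from OIB; `|t| ≥ 4`, then `|x - t| ≥ |t|/2`). Trivially `|I| ≤ K/|t|`. By parts in `x` (inner integral, fixed `τ`) with `θ = s log((x-t)²+e^{2τ})`, `θ' = 2s(x-t)/((x-t)²+y²)`; with the amplitude
`C ((x-t)²+y²)^{-1/2}` one has `|θ'| ≥ s/(2|t|)`, `|θ''| ≤ 8 s/t²`, amplitude `≤ K/|t|`, its derivative `≤ K/|t|`: so `|I| ≤ K/s`; `s ≥ 0.99 r`. (`[A,B] = [-1/2,1/2]`: there the amplitude vanishes at the ends;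
the outer integral is over `|τ| ≤ 1/4`.) -/
def BKA_stmt : Prop := ∀ C : ℝ → ℝ → ℂ, CB C → ∃ K : ℝ, 0 < K ∧ ∀ r s t : ℝ, 1 ≤ r → |s - r| ≤ r / 100 → 4 ≤ |t| →
  max r |t| * ‖bI C r s t‖ ≤ K

/-- **Row BKB** (from OIB; `|t| ≤ 4`). By parts in `τ` (interchange the integrals first; continuous with compact support): `θ = (r-s)τ + s log((x-t)²+e^{2τ})`,
`θ' = (r-s) + 2s e^{2τ}/((x-t)²+e^{2τ}) ≥ 0.06 s - r/100 ≥ 0.04 r` for `|x|, |τ| ≤ 1/4` (`e^{2τ} ≥ 0.6`, `(x-t)² ≤ 18.1`), `|θ''| ≤ 4 s`, amplitude `C ((x-t)²+e^{2τ})^{-1/2}` and its `τ`-derivative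
bounded as `(x-t)²+e^{2τ} ≥ 1/2`: `|I| ≤ K/r`. (Use OIB on `[A,B] = [-1/4,1/4]`: `C` vanishes at the ends by continuity.) -/
def BKB_stmt : Prop := ∀ C : ℝ → ℝ → ℂ, CB C → ∃ K : ℝ, 0 < K ∧ ∀ r s t : ℝ, 1 ≤ r → |s - r| ≤ r / 100 → |t| ≤ 4 →
  r * ‖bI C r s t‖ ≤ K

/-- **Row BK1** (short; from BKA, BKB: for `|t| ≤ 4`, `max(r,|t|) ≤ 4 r`). -/
def BK1_stmt : Prop := ∀ C : ℝ → ℝ → ℂ, CB C → ∃ K : ℝ, 0 < K ∧ ∀ r s t : ℝ, 1 ≤ r → |s - r| ≤ r / 100 →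
  max r |t| * ‖bI C r s t‖ ≤ K

/-- **Row BK2** (pointwise limit). `s log((x-rv)²+y²) = s log(r²v²) + s log(1 - 2x/(rv) + (x²+y²)/(rv)²)`, the first term is independent of `(x,τ)` (factor
of modulus 1) and the second tends to `-2x/v` (as `s/r → 1`), uniformly on the box; `r ((x-rv)²+y²)^{-1/2} → 1/|v|`; dominated convergence in `(x,τ)`
(integrand `≤ K ‖C‖`). So `r |I(rv)| → |v|⁻¹ |∬ C e^{-iστ} e^{-2ix/v}|`. -/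
def BK2_stmt : Prop := ∀ C : ℝ → ℝ → ℂ, CB C → ∀ (r s : ℕ → ℝ) (σ v : ℝ), Tendsto r atTop atTop →
  Tendsto (fun n => s n - r n) atTop (𝓝 σ) → v ≠ 0 →
    Tendsto (fun n => r n * ‖bI C (r n) (s n) (r n * v)‖) atTop (𝓝 (|v|⁻¹ * ‖bF C (2 / v) σ‖))

/-- **Row BK3** (from BK1, BK2). `t = r v`: `r κ = (1/π) ∫ |r I(rv)|² dv`, and `|r I(rv)| ≤ K min(1, 1/|v|)` by BK1: dominated convergence with
the integrable function `K² min(1, v⁻²)`. `t ↦ I(t)` is continuous, so `|I|²` is integrable. -/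
def BK3_stmt : Prop := ∀ C : ℝ → ℝ → ℂ, CB C →
  (∃ K : ℝ, 0 < K ∧ ∀ r s : ℝ, 1 ≤ r → |s - r| ≤ r / 100 → Integrable (fun t => ‖bI C r s t‖ ^ 2) ∧
    r * bk C r s ≤ K) ∧
  ∀ (r s : ℕ → ℝ) (σ : ℝ), Tendsto r atTop atTop → Tendsto (fun n => s n - r n) atTop (𝓝 σ) →
    Tendsto (fun n => r n * bk C (r n) (s n)) atTop (𝓝 ((1 / Real.pi) * ∫ v : ℝ, (v⁻¹) ^ 2 * ‖bF C (2 / v) σ‖ ^ 2))

/-- **Row BK4** (Mathlib only: Plancherel). `bF (pr β α) k σ = hF β k * hF α σ`; substitution `k = 2/v` on `(0,∞)` and `(-∞,0)`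
(`integral_comp_rpow_Ioi` with exponent `-1`): `∫ v⁻² |β̂(2/v)|² dv = ½ ∫ |β̂(k)|² dk = π ∫ β²` (Plancherel for smooth compactly supported functions;
`β̂(k) = 𝓕β(k/2π)`). -/
def BK4_stmt : Prop := ∀ α β : ℝ → ℝ, SB (1 / 4) α → SB (1 / 4) β → ∀ σ : ℝ,
  (1 / Real.pi) * ∫ v : ℝ, (v⁻¹) ^ 2 * ‖bF (pr β α) (2 / v) σ‖ ^ 2 = ‖hF α σ‖ ^ 2 * ∫ x : ℝ, β x ^ 2

/-- **Row BK5** (from BK3, BK4). If not, there are `r_n ≥ n`, `|s_n - r_n| ≤ R₀` violating it; pass to a subsequence with `s_n - r_n → σ`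
(`IsCompact.tendsto_subseq` for `[-R₀,R₀]`); BK3, BK4 and continuity of `hF α`. -/
def BK5_stmt : Prop := ∀ α β : ℝ → ℝ, SB (1 / 4) α → SB (1 / 4) β → ∀ η R0 : ℝ, 0 < η → ∃ r0 : ℝ, 1 ≤ r0 ∧
  ∀ r s : ℝ, r0 ≤ r → |s - r| ≤ R0 → |r * bk (pr β α) r s - ‖hF α (s - r)‖ ^ 2 * ∫ x : ℝ, β x ^ 2| ≤ η

/-- **Row ALH** (Mathlib only). `|hF α σ| ≤ ∫ α`; `Re hF α σ = ∫ α cos(στ) ≥ ∫ α (1 - σ²τ²/2) ≥ (1 - w²/2) ∫ α`. -/
def ALH_stmt : Prop := ∀ (w : ℝ) (α : ℝ → ℝ), 0 < w → w ≤ 1 → SB w α → (∀ x, 0 ≤ α x) →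
  (∀ σ, ‖hF α σ‖ ≤ ∫ x : ℝ, α x) ∧ ∀ σ, |σ| ≤ 1 → (1 - w ^ 2) * ∫ x : ℝ, α x ≤ ‖hF α σ‖

/-- **Row CV1** (coordinates `z = x + i e^τ`; from QU.A_INV: `dx dy/y² = e^{-τ} dx dτ`). The second part: `y^{1/2+ir} P^{1/2-is} y^{-1} = e^{i(r-s)τ}
((x-t)²+e^{2τ})^{-1/2+is}`. The third: the function `pc β α` (`log` is smooth on `(0,∞)`). -/
def CV1_stmt : Prop :=
  (∀ f : ℍ → ℂ, Continuous f → HasCompactSupport f →
    ∫ z : ℍ, f z = ∫ τ : ℝ, ∫ x : ℝ, ((Real.exp (-τ) : ℝ) : ℂ) * f (pt x τ)) ∧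
  (∀ c : ℍ → ℂ, TB (1 / 4) c → CB (cc c) ∧ HasCompactSupport c ∧ ∀ r s t : ℝ,
    ∫ z : ℍ, pk r c z * ((Pk z t : ℝ) : ℂ) ^ ((1 / 2 : ℂ) - (s : ℂ) * Complex.I) = bI (cc c) r s t) ∧
  ∀ (w : ℝ) (α β : ℝ → ℝ), SB w α → SB w β → TB w (pc β α) ∧ cc (pc β α) = pr β α ∧
    xm (pc β α) = pc (fun x => x * β x) α ∧ SB w (fun x => x * β x)

/-! ## C. The spherical function -/

/-- **Row RD1** (radial equation). `kM θ • z` has velocity `1 + z²` and acceleration `2z(1+z²)` at `θ = 0`. At `z = iy`: velocity `1 - y²` (real),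
acceleration `2iy(1-y²)`. Differentiating `u(kM θ • iy) = u(iy)` twice: `u_xx (1-y²)² + 2y(1-y²) u_y = 0`, so for `y ≠ 1` `u_xx = 2y u_y/(y²-1)` and
`-lam u = y²(u_xx + u_yy)` becomes `U'' + coth(ρ) U' + lam U = 0` (`y = e^ρ`, `U' = y u_y`, `U'' = y²u_yy + y u_y`). Evenness: `kM(π/2) • iy = i/y`;
so `U'(0) = 0` and the equation (multiplied by `sinh ρ`) holds at `ρ = 0`. -/
def RD1_stmt : Prop := ∀ (u : ℍ → ℂ) (lam : ℝ), QU.CD 2 u → (∀ (θ : ℝ) (z : ℍ), u (kM θ • z) = u z) →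
  (∀ z, QU.lap u z = (lam : ℂ) * u z) → ContDiff ℝ 2 (fun ρ : ℝ => u (pt 0 ρ)) ∧
    (∀ ρ : ℝ, u (pt 0 (-ρ)) = u (pt 0 ρ)) ∧
    ∀ ρ : ℝ, ((Real.sinh ρ : ℝ) : ℂ) * deriv (deriv (fun ρ : ℝ => u (pt 0 ρ))) ρ +
      ((Real.cosh ρ : ℝ) : ℂ) * deriv (fun ρ : ℝ => u (pt 0 ρ)) ρ + ((lam * Real.sinh ρ : ℝ) : ℂ) * u (pt 0 ρ) = 0

/-- **Row RD2** (Mathlib only). `E = |U'|² + lam |U|²` is continuous, `E(0) = 0`, and for `ρ > 0` `E' = 2 Re(conj U' (U'' + lam U)) = -2 coth(ρ) |U'|² ≤ 0`; so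
`E = 0` on `[0,∞)` (`antitoneOn_of_deriv_nonpos`). `U'(0) = 0` since `U` is even. -/
def RD2_stmt : Prop := ∀ (U : ℝ → ℂ) (lam : ℝ), 0 < lam → ContDiff ℝ 2 U → (∀ ρ, U (-ρ) = U ρ) →
  (∀ ρ : ℝ, ((Real.sinh ρ : ℝ) : ℂ) * deriv (deriv U) ρ + ((Real.cosh ρ : ℝ) : ℂ) * deriv U ρ +
    ((lam * Real.sinh ρ : ℝ) : ℂ) * U ρ = 0) → U 0 = 0 → ∀ ρ, 0 ≤ ρ → U ρ = 0

/-- **Row RD3** (from RD1, RD2). Every `z` is `kM θ • i e^ρ` with `ρ ≥ 0`: rotate `z` to the imaginary axis: the real part of `kM θ • z` is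
`((1+... )...)/|·|²`, explicitly `Re = (cos 2θ · x + ½ sin 2θ (1 - |z|²))/|−z sin θ + cos θ|²`, which vanishes for some `θ`; use `kM(π/2)` to get
`y ≥ 1`. -/
def RD3_stmt : Prop := (∀ z : ℍ, ∃ θ ρ : ℝ, 0 ≤ ρ ∧ z = kM θ • pt 0 ρ) ∧
  ∀ (u : ℍ → ℂ) (lam : ℝ), 0 < lam → QU.CD 2 u → (∀ (θ : ℝ) (z : ℍ), u (kM θ • z) = u z) →
    (∀ z, QU.lap u z = (lam : ℂ) * u z) → u I = 0 → ∀ z, u z = 0

/-- **Row PH1** (Poisson kernel). `Pk (g•z) ((at+b)/(ct+d)) = Pk z t (ct+d)²` if `ct + d ≠ 0`; powers are smooth with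
`-Δ P^a = a(1-a) P^a` (for `t` fixed translate to `t = 0`; `log P` is harmonic-like: `P = y/|z-t|²`, or compute: `P^a = y^a |z-t|^{-2a}`);
`Δ = QU.lap` is `-y²(∂xx+∂yy)`. -/
def PH1_stmt : Prop := (∀ (z : ℍ) (t : ℝ), 0 < Pk z t) ∧
  (∀ (g : SL(2, ℝ)) (z : ℍ) (t : ℝ), g 1 0 * t + g 1 1 ≠ 0 →
    Pk (g • z) ((g 0 0 * t + g 0 1) / (g 1 0 * t + g 1 1)) = Pk z t * (g 1 0 * t + g 1 1) ^ 2) ∧
  ∀ (a : ℂ) (t : ℝ), QU.CD ∞ (fun z => ((Pk z t : ℝ) : ℂ) ^ a) ∧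
    ∀ z, QU.lap (fun z => ((Pk z t : ℝ) : ℂ) ^ a) z = a * (1 - a) * ((Pk z t : ℝ) : ℂ) ^ a

/-- **Row PH2** (invariance; from PH1). Substitution `t = (aτ+b)/(cτ+d)`, `dt = dτ/(cτ+d)²`. It is enough to treat the generators `nM x`, `aM t`
(affine substitutions) and `kM (π/2)` (`t = -1/τ` on `(0,∞)` and `(-∞,0)`; `Pk (kM(π/2) • z) (-1/τ) = Pk z τ τ²`); every element of `SL(2,ℝ)` is a product of such
(`c ≠ 0`: `g = nM(a/c) kM(±π/2) aM(·) nM(d/c)` up to sign, `-1 = kM π` acts trivially). -/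
def PH2_stmt : Prop := ∀ (s : ℝ) (g : SL(2, ℝ)) (z z' : ℍ), Ph s (g • z) (g • z') = Ph s z z'

/-- **Row PH3** (differentiation under the integral; from PH1). For `z` in a small ball the first two derivatives in `z` of the integrand are `≤ K/(1+t²)`
(`|P| ≤ K/(1+t²)`, `|∂ log P| ≤ K`, `|∂² log P| ≤ K`; the second factor is `≤ K (1+t²)^{-1/2}`, the first and its derivatives `≤ K (1+t²)^{-1/2}`). -/
def PH3_stmt : Prop := ∀ (s : ℝ) (z' : ℍ), QU.CD 2 (fun z => Ph s z z') ∧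
  ∀ z, QU.lap (fun z => Ph s z z') z = ((1 / 4 + s ^ 2 : ℝ) : ℂ) * Ph s z z'

/-- **Row PH4** (from PH2, CV1, BK3). (1) at `(i,i)`: `(1/π) ∫ dt/(1+t²) = 1`; `z = g • i` and PH2. (2) Fubini: the `t`-integral outside; `conj(P^{1/2-is}) = P^{1/2+is}`;
by CV1 the inner integrals are `bI` and its conjugate. Absolute convergence: `c` is bounded with compact support, on which `P(z,t) ≤ K/(1+t²)`. -/
def PH4_stmt : Prop := (∀ (s : ℝ) (z : ℍ), Ph s z z = 1) ∧ ∀ (c : ℍ → ℂ) (r s : ℝ), TB (1 / 4) c →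
  ∫ z : ℍ, ∫ z' : ℍ, pk r c z * conj (pk r c z') * Ph s z z' = ((bk (cc c) r s : ℝ) : ℂ)

/-- **Row GR0** (correlations `S(z,z') = ∫_{Γ\G} φ(gz) conj u(gz') dg`; from GFD, GLC). Right invariance (GFD, second part) and the base integral (GFD, fourth part). (`g • h • z = (g * h) • z`; for the third part `z = h • I`.) -/
def GR0_stmt : Prop := ∀ (Γ : Subgroup SL(2, ℝ)) (F : Set ℍ), QU.SurfaceGroup Γ → QU.NiceDom Γ F →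
  (∀ φ : ℍ → ℂ, InvC Γ φ → ∀ z : ℍ, iR F (fun g => ‖φ (g • z)‖ ^ 2) = nn F φ) ∧
  ∀ φ u : ℍ → ℂ, InvC Γ φ → InvC Γ u →
    (∀ (h : SL(2, ℝ)) (z z' : ℍ), iG F (fun g => φ (g • h • z) * conj (u (g • h • z'))) =
      iG F (fun g => φ (g • z) * conj (u (g • z')))) ∧
    ∀ z : ℍ, iG F (fun g => φ (g • z) * conj (u (g • z))) = ∫ z in F, φ z * conj (u z)

/-- **Row GR1** (the correlation is an eigenfunction; from GFD, GLC). `dG F` is relatively compact (GFD) of finite measure, `φ` is `C²`: differentiate twice under the integral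
(`(g, z) ↦ φ(g • z)` and its derivatives in `z` up to order 2 are continuous, hence bounded for `g` in a compact set and `z` near `z₀`), and `lap (fun z => φ (g • z)) z = (lap φ)(g • z)`. -/
def GR1_stmt : Prop := ∀ (Γ : Subgroup SL(2, ℝ)) (F : Set ℍ), QU.SurfaceGroup Γ → QU.NiceDom Γ F →
  ∀ (lam : ℝ) (φ u : ℍ → ℂ), EigL Γ lam φ → InvC Γ u →
    ∀ z' : ℍ, QU.CD 2 (fun z => iG F (fun g => φ (g • z) * conj (u (g • z')))) ∧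
      ∀ z, QU.lap (fun z => iG F (fun g => φ (g • z) * conj (u (g • z')))) z =
        (lam : ℂ) * iG F (fun g => φ (g • z) * conj (u (g • z')))

/-- **Row LPI** (invariance of the Laplacian; QU.A_CA1). For `g ∈ SL(2,ℝ)` the map `z ↦ g • z` is holomorphic with derivative `(cz+d)^{-2}`, `Im (g•z) = y/|cz+d|²`: `Δ(φ∘g) = (Δφ)∘g` (chain rule for the second
derivative; the second derivatives of the real and imaginary part of a holomorphic map are harmonic). -/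
def LPI_stmt : Prop := ∀ (φ : ℍ → ℂ) (g : SL(2, ℝ)), (∀ n : WithTop ℕ∞, QU.CD n φ → QU.CD n (fun z => φ (g • z))) ∧
  (QU.CD 2 φ → ∀ z, QU.lap (fun z => φ (g • z)) z = QU.lap φ (g • z))

/-- **Row GR2** (Gram identity; from GR0, GR1, RD3, PH2, PH3, PH4). `v(z) = S(z,I) - (∫_F φ conj u) * Ph s z I` is `kM`-invariant (`kM θ • I = I`), `lap v = (1/4+s²)v`, `v(I) = 0`:
`v = 0`; general `z' = h • I` by invariance. Then Fubini (`dG F × ℍ × ℍ`, everything bounded with compact supports): `∫_{Γ\G} F_c^φ conj F_c^u = ∬ pk c(z) conj(pk c(z')) S(z,z')`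
`= (∫_F φ conj u) * bk (cc c) r s`. Last part: `u = φ`. -/
def GR2_stmt : Prop := ∀ (Γ : Subgroup SL(2, ℝ)) (F : Set ℍ), QU.SurfaceGroup Γ → QU.NiceDom Γ F →
  ∀ (s : ℝ) (φ : ℍ → ℂ), EigL Γ (1 / 4 + s ^ 2) φ →
    (∀ (c u : ℍ → ℂ) (r : ℝ), TB (1 / 4) c → InvC Γ u → iG F (fun g => Wf (pk r c) φ g * conj (Wf (pk r c) u g)) =
      (∫ z in F, φ z * conj (u z)) * ((bk (cc c) r s : ℝ) : ℂ)) ∧
    ∀ (c : ℍ → ℂ) (r : ℝ), TB (1 / 4) c → qn F c r φ = nn F φ * bk (cc c) r s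

/-! ## D. The functions `F_c = Wf (pk r c) φ` on `G` -/

/-- **Row FL0** (basic properties; QU.A_CA1). (1) the class `TB w` is stable. (2) `Wf f φ` is continuous and `Γ`-invariant for `f` continuous with compact support and `φ` continuous invariant
(parametric integral: `φ(gz)` is jointly continuous); bounded. -/
def FL0_stmt : Prop := (∀ (w : ℝ) (c : ℍ → ℂ), TB w c → TB w (px c) ∧ TB w (xm c) ∧ TB w (QU.dY c) ∧ TB w (kW c) ∧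
    TB w (QU.lap c) ∧ HasCompactSupport c ∧ Continuous c) ∧
  (∀ (w r : ℝ) (c : ℍ → ℂ), TB w c → Tst (pk r c)) ∧
  ∀ (Γ : Subgroup SL(2, ℝ)) (f φ : ℍ → ℂ), Continuous f → HasCompactSupport f → InvC Γ φ → InvG Γ (Wf f φ)

/-- **Row FL1**. `F_c(g nM x) = ∫ c(z) y^{1/2+ir} φ(g(z+x)) dz = ∫ c(z-x) y^{1/2+ir} φ(gz) dz` (`nM x • z = z + x`, invariance of the measure); differentiate under the integral
(`c` smooth with compact support, `φ` only continuous). (GLC.) -/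
def FL1_stmt : Prop := ∀ (r : ℝ) (c φ : ℍ → ℂ), TB (1 / 4) c → Continuous φ → ∀ g : SL(2, ℝ),
  HasDerivAt (fun x : ℝ => Wf (pk r c) φ (g * nM x)) (-Wf (pk r (px c)) φ g) 0

/-- **Row FL2**. `aM t • z = e^t z`: `F_c(g aM t) = e^{-t(1/2+ir)} ∫ c(e^{-t}z) y^{1/2+ir} φ(gz) dz`; derivative at `0`: `-(1/2+ir)F_c - F_{x c_x} - F_{y c_y}`. -/
def FL2_stmt : Prop := ∀ (r : ℝ) (c φ : ℍ → ℂ), TB (1 / 4) c → Continuous φ → ∀ g : SL(2, ℝ),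
  HasDerivAt (fun t : ℝ => Wf (pk r c) φ (g * aM t))
    (-((1 / 2 : ℂ) + (r : ℂ) * Complex.I) * Wf (pk r c) φ g - Wf (pk r (xm (px c))) φ g - Wf (pk r (QU.dY c)) φ g) 0

/-- **Row FL3**. `F_c(g lM u) = ∫ c(w) (Im w)^{1/2+ir} φ(gz) dz`, `w = (lM u)⁻¹ • z = z/(1-uz)`, `dw/du = z²` at `u = 0`, i.e. `dc(w)/du = kW c`, `d log Im w/du = 2x`. For `|u|` small all
supports stay in a compact set. -/
def FL3_stmt : Prop := ∀ (r : ℝ) (c φ : ℍ → ℂ), TB (1 / 4) c → Continuous φ → ∀ g : SL(2, ℝ),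
  HasDerivAt (fun u : ℝ => Wf (pk r c) φ (g * lM u))
    ((1 + 2 * (r : ℂ) * Complex.I) * Wf (pk r (xm c)) φ g + Wf (pk r (kW c)) φ g) 0

/-- **Row FL4** (Green; QU.A_GRN applied to real and imaginary part, QU.A_CA2). `lap (c y^a) = y^a (lap c - 2a y c_y + a(1-a) c)`, `a = 1/2+ir`, `a(1-a) = 1/4+r²`, `lap (φ ∘ g) = lam φ ∘ g`:
`∫ lap(c y^a) φ(gz) = lam ∫ c y^a φ(gz)`. -/
def FL4_stmt : Prop := ∀ (Γ : Subgroup SL(2, ℝ)) (lam r : ℝ) (c φ : ℍ → ℂ), TB (1 / 4) c → EigL Γ lam φ → ∀ g : SL(2, ℝ),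
  (1 + 2 * (r : ℂ) * Complex.I) * Wf (pk r (QU.dY c)) φ g =
    Wf (pk r (QU.lap c)) φ g + ((1 / 4 + r ^ 2 - lam : ℝ) : ℂ) * Wf (pk r c) φ g

/-- **Row TRV** (trivial bound; from GYN: `∫ |pk r c| = ∫ |c| y^{1/2}` does not depend on `r`; or from GR0). Cauchy-Schwarz: `|F_c(g)|² ≤ (∫ |pk r c|²) ∫_{supp c} |φ(gz)|² dz`; integrate over `dG F` (Fubini) and use GR0. The constant does not depend on `r`, `φ`, `F`
(`|pk r c| = |c| y^{1/2}`). -/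
def TRV_stmt : Prop := ∀ c : ℍ → ℂ, TB (1 / 4) c → ∃ K : ℝ, 0 ≤ K ∧ ∀ (Γ : Subgroup SL(2, ℝ)) (F : Set ℍ) (r : ℝ) (φ : ℍ → ℂ),
  QU.SurfaceGroup Γ → QU.NiceDom Γ F → InvC Γ φ → qn F c r φ ≤ K * nn F φ

/-! ## E. Frame bounds -/

/-- **Row EF1** (eigenvalues not near `r`; from FL0, FL4, TRV, GR2, BK3, CV1). By FL4 and Minkowski `|1/4+r²-lam| ‖F_c‖ ≤ (1+2r) ‖F_{dY c}‖ + ‖F_{lap c}‖` in `L²(Γ\G)`. (mid) `lam = 1/4+s²`, `R₀ < |s-r| ≤ r/100`: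
`|r²-s²| ≥ R₀ r`, and `‖F_{c'}‖² ≤ (K/r) nn` for `c' = dY c, lap c` (GR2, BK3). (far) otherwise `|1/4+r²-lam| ≥ r²/200`: use FL4 twice and TRV: `‖F_c‖ ≤ (K/r)² nn^{1/2}`, `K/r⁴ ≤ K/(R₀² r)`. -/
def EF1_stmt : Prop := ∀ c : ℍ → ℂ, TB (1 / 4) c → ∃ K : ℝ, 0 ≤ K ∧ ∀ (Γ : Subgroup SL(2, ℝ)) (F : Set ℍ) (r R0 lam : ℝ) (φ : ℍ → ℂ),
  QU.SurfaceGroup Γ → QU.NiceDom Γ F → 1 ≤ R0 → 100 * R0 ≤ r → EigL Γ lam φ →
  (∀ s : ℝ, 0 ≤ s → lam = 1 / 4 + s ^ 2 → R0 < |s - r|) → qn F c r φ ≤ K / (R0 ^ 2 * r) * nn F φ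

/-- the kernel of `u ↦ ∫_G conj f(g⁻¹z) (Wf f u)(g) dg` -/
def kf (f : ℍ → ℂ) (z w : ℍ) : ℂ := ∫ g : SL(2, ℝ), conj (f (g⁻¹ • z)) * f (g⁻¹ • w) ∂mG

/-- **Row NR1** (the kernel; from GLC, GMG, GLI). Continuous, invariant (`g → hg`), of finite propagation; for `z, w` there is an isometry exchanging them (rotation by `π` about the
midpoint), so `kf f z w = kf f w z`; hermitian, hence real. -/
def NR1_stmt : Prop := ∀ f : ℍ → ℂ, Continuous f → HasCompactSupport f →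
  Continuous (Function.uncurry (kf f)) ∧ (∀ (g : SL(2, ℝ)) (z w : ℍ), kf f (g • z) (g • w) = kf f z w) ∧
  (∃ R : ℝ, ∀ z w, kf f z w ≠ 0 → dist z w ≤ R) ∧ (∀ z w : ℍ, ∃ g : SL(2, ℝ), g • z = w ∧ g • w = z) ∧
  (∀ z w, kf f z w = kf f w z) ∧ ∀ z w, conj (kf f z w) = kf f z w

/-- **Row NR2** (quadratic form; from NR1, GLC, GMG, GLI, GFD, GWB; `QU.A_DOB` for the unfolding). `∫_{Γ\G} |Wf f u|² = ∫_{z ∈ F} conj u(z) ∫_ℍ kf f z w u(w) dw dz`: `|W|² = conj W · W`, `conj W(g) = ∫ conj f(g⁻¹z) conj u(z) dz`, unfold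
`∫_{dG F} ∫_ℍ = ∫_{z∈F} ∫_G` (both sides are invariant under the diagonal action of `Γ`). -/
def NR2_stmt : Prop := ∀ (Γ : Subgroup SL(2, ℝ)) (F : Set ℍ) (f u : ℍ → ℂ), QU.SurfaceGroup Γ → QU.NiceDom Γ F →
  Continuous f → HasCompactSupport f → InvC Γ u →
    ((iR F (fun g => ‖Wf f u g‖ ^ 2) : ℝ) : ℂ) = ∫ z in F, conj (u z) * ∫ w : ℍ, kf f z w * u w

/-- the operator with kernel `K` -/
def kop (K : ℍ → ℍ → ℝ) (u : ℍ → ℂ) (z : ℍ) : ℂ := ∫ w : ℍ, ((K z w : ℝ) : ℂ) * u w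

/-- **Row NR3** (the maximum is attained; QU.A_DOB, QU.A_BDD, QU.A_SYM). `K` real continuous symmetric `Γ`-invariant kernel of finite propagation with nonnegative form `Q(u) = ∫_F conj u (K u) ≥ 0`. Let `q` be the supremum of `Q(u)/nn F u` over `InvC`
(finite: `|K u(z)| ≤ C nn^{1/2}`). If `q > 0`: take `u_n` with `nn F u_n = 1`, `Q(u_n) → q`; `nn F (K u_n - q u_n) ≤ q (q - Q(u_n)) → 0` (Cauchy-Schwarz for the form `q - K ≥ 0`: `‖(q-K)u‖² ≤ ‖q-K‖ ⟨(q-K)u,u⟩`); `v_n = K u_n` are uniformly bounded, invariant and equicontinuous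
(`K` is uniformly continuous), so a subsequence converges uniformly (Arzelà-Ascoli on a compact set containing `F`; `BoundedContinuousFunction.arzela_ascoli` or `ArzelaAscoli`) to `v` in `InvC`, `nn F v = q² > 0`, `K v = q v`.
(Alternative: the operator on `L²(F)` is compact and self-adjoint, helper28/Hartogs/Abstract.lean: weakly null sequences go to `0` pointwise and boundedly.) -/
def NR3_stmt : Prop := ∀ (Γ : Subgroup SL(2, ℝ)) (F : Set ℍ) (K : ℍ → ℍ → ℝ), QU.SurfaceGroup Γ → QU.NiceDom Γ F → QU.PKer Γ K →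
  (∀ u : ℍ → ℂ, InvC Γ u → 0 ≤ (∫ z in F, conj (u z) * kop K u z).re) →
  ∃ q : ℝ, 0 ≤ q ∧ (∀ u : ℍ → ℂ, InvC Γ u → (∫ z in F, conj (u z) * kop K u z).re ≤ q * nn F u) ∧
    (q = 0 ∨ ∃ v : ℍ → ℂ, InvC Γ v ∧ (∃ z, v z ≠ 0) ∧ ∀ z, kop K v z = (q : ℂ) * v z)

/-- **Row NRF** (finite multiplicity). `E` = all `v` in `InvC` with `K v = q v`, `q ≠ 0`. On `E`: `|v(z)| ≤ C nn^{1/2}` and `v` is equicontinuous (as in NR3), so the unit sphere of `nn^{1/2}` is compact for uniform convergence; or: `Σ |v_i(z)|² ≤ C²` for every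
orthonormal family in `E` (apply the bound to `Σ conj(v_i(z)) v_i`), integrate over `F`: the number of the `v_i` is `≤ C² vol F`. -/
def NRF_stmt : Prop := ∀ (Γ : Subgroup SL(2, ℝ)) (F : Set ℍ) (K : ℍ → ℍ → ℝ) (q : ℝ), QU.SurfaceGroup Γ → QU.NiceDom Γ F → QU.PKer Γ K → q ≠ 0 →
  ∃ E : Submodule ℂ (ℍ → ℂ), FiniteDimensional ℂ E ∧ ∀ v : ℍ → ℂ, v ∈ E ↔ (InvC Γ v ∧ ∀ z, kop K v z = (q : ℂ) * v z)

/-- **Row NR4** (QU.A_CVS, QU.A_CVB, QU.A_SYM, QU.A_APX, QU.A_KFM, QU.A_LAK). `E` finite dimensional, stable under `conv κ` for all radial kernels `κ` (`RK`). On `E`, `conv (fam η) → 1` as `η → 0` (uniformly on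
compact sets, APX; all norms on `E` are equivalent), so for some `η` `B = conv (fam η)` is bijective on `E`. So every `v = B v'` is `C²` and `lap v = conv (LL (fam η)) v' ∈ E` (CVS). `B` and `A = conv (LL (fam η))` are symmetric for `∫_F conj u v` (SYM, real kernels) and
commute (`conv κ (conv κ' v) = conv κ' (conv κ v)`, both kernels are point pair invariants, or: `A B v' = lap (B (B v')) = ...` by COM), so `lap = A B⁻¹` is symmetric on `E`. -/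
def NR4_stmt : Prop := ∀ (Γ : Subgroup SL(2, ℝ)) (F : Set ℍ) (E : Submodule ℂ (ℍ → ℂ)), QU.SurfaceGroup Γ → QU.NiceDom Γ F →
  FiniteDimensional ℂ E → (∀ v ∈ E, InvC Γ v) → (∀ κ : ℝ → ℝ, QU.RK κ → ∀ v ∈ E, QU.conv κ v ∈ E) →
    (∀ v ∈ E, QU.CD 2 v ∧ QU.lap v ∈ E) ∧ ∀ v ∈ E, ∀ v' ∈ E, ∫ z in F, conj (QU.lap v z) * v' z = ∫ z in F, conj (v z) * QU.lap v' z

/-- **Row NRL** (linear algebra; from NR4; QU.A_DOB). `lap` is linear on `E` (CA1/CA2), symmetric for the inner product `∫_F conj u v` (definite: continuous functions; `dG`-open sets have positive measure, QU.A_BDD), so it has an eigenvector, with a real eigenvalue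
(a matrix in an orthonormal basis, or an eigenvalue over `ℂ` (`Module.End.exists_eigenvalue`) which is real by symmetry). -/
def NRL_stmt : Prop := ∀ (Γ : Subgroup SL(2, ℝ)) (F : Set ℍ) (E : Submodule ℂ (ℍ → ℂ)), QU.SurfaceGroup Γ → QU.NiceDom Γ F →
  FiniteDimensional ℂ E → E ≠ ⊥ → (∀ v ∈ E, InvC Γ v) → (∀ κ : ℝ → ℝ, QU.RK κ → ∀ v ∈ E, QU.conv κ v ∈ E) →
    ∃ (v : ℍ → ℂ) (lam : ℝ), v ∈ E ∧ 0 < nn F v ∧ EigL Γ lam v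

/-- **Row NR5** (from NR1, NR2, NR3, NRF, NRL). The operator `K = kf f` commutes with `conv κ`: both kernels are symmetric and `G`-invariant, so
`∫ k₁(z,v) k₂(v,w) dv = ∫ k₂(z,v) k₁(v,w) dv` by the isometry exchanging `z` and `w` (NR1); so the `E` of NRF satisfies the hypothesis of NRL (`conv κ v` is in `InvC` by CVB, CVS). Here `K z w = (kf f z w).re`. Result: the norm of `u ↦ Wf f u` on `L²(Γ\ℍ)` is attained at an eigenfunction. -/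
def NR5_stmt : Prop := ∀ (Γ : Subgroup SL(2, ℝ)) (F : Set ℍ) (f : ℍ → ℂ), QU.SurfaceGroup Γ → QU.NiceDom Γ F →
  Continuous f → HasCompactSupport f → ∃ q : ℝ, 0 ≤ q ∧
    (∀ u : ℍ → ℂ, InvC Γ u → iR F (fun g => ‖Wf f u g‖ ^ 2) ≤ q * nn F u) ∧
    (q = 0 ∨ ∃ (lam : ℝ) (v : ℍ → ℂ), EigL Γ lam v ∧ 0 < nn F v ∧ iR F (fun g => ‖Wf f v g‖ ^ 2) = q * nn F v)

/-- **Row NM2** (frame bounds; from NR5, EF1, GR2, BK5, ALH, CV1). `A = (∫α)² ∫β²`, `κ = (A + η')/r`. Upper bound: NR5 with `f = pk r (pc β α)`; the maximizing eigenfunction has `qn ≤ (A+η')/r nn`: if `lam = 1/4+s²` with `|s-r| ≤ R₀` by BK5, ALH, otherwise by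
EF1 with `K/R₀² ≤ A`. Lower bound for `|s-r| ≤ 1`: BK5, ALH. Last bound: `xm (pc β α) = pc (xβ) α`, `∫ x²β² ≤ w² ∫β²`. -/
def NM2_stmt : Prop := ∀ (Γ : Subgroup SL(2, ℝ)) (F : Set ℍ) (w : ℝ) (α β : ℝ → ℝ), QU.SurfaceGroup Γ → QU.NiceDom Γ F →
  0 < w → w ≤ 1 / 4 → SB w α → SB w β → (∀ x, 0 ≤ α x) → 0 < ∫ x : ℝ, α x → 0 < ∫ x : ℝ, β x ^ 2 → ∀ η : ℝ, 0 < η →
  ∃ A r0 : ℝ, 0 < A ∧ 1 ≤ r0 ∧ ∀ r : ℝ, r0 ≤ r →
    (∀ u : ℍ → ℂ, InvC Γ u → qn F (pc β α) r u ≤ A / r * nn F u) ∧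
    ∀ (s : ℝ) (φ : ℍ → ℂ), |s - r| ≤ 1 → EigL Γ (1 / 4 + s ^ 2) φ →
      (1 - 2 * w ^ 2 - η) * (A / r) * nn F φ ≤ qn F (pc β α) r φ ∧
      qn F (xm (pc β α)) r φ ≤ (w ^ 2 + η) * (A / r) * nn F φ

/-! ## F. Overlap of forward and backward packets -/

/-- **Row OV1** (uniform amplitude bounds). The set `H` of the `h` with `h • z ∈ B`, `z ∈ B` for some `z` (`B` = box `1/64`) is relatively compact (entries `≤ 3`) with `1/2 ≤ |h₁₀ z + h₁₁|² ≤ 2` on such `z`; the amplitude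
`a(x,τ) = c(z) c(h•z) |h₁₀z+h₁₁|^{-1} · ...` and its first derivatives in `x` and in `τ` are bounded uniformly in `h ∈ H` (smooth function of `(h,x,τ)` on a compact set; outside the supports it vanishes). Here `Im(h•z) = y/|h₁₀z+h₁₁|²`. -/
def OV1_stmt : Prop := ∀ c : ℍ → ℂ, TB (1 / 64) c → ∃ K : ℝ, 0 < K ∧ ∀ h : SL(2, ℝ), (∃ z : ℍ, c z ≠ 0 ∧ c (h • z) ≠ 0) →
  (∀ i j, |h i j| ≤ 3) ∧
  ContDiff ℝ 1 (fun p : ℝ × ℝ => c (pt p.1 p.2) * c (h • pt p.1 p.2) *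
    (((((h 1 0 * p.1 + h 1 1) ^ 2 + (h 1 0) ^ 2 * Real.exp (2 * p.2)) ^ (-(1 / 2 : ℝ)) : ℝ)) : ℂ)) ∧
  ∀ x τ : ℝ, ‖fderiv ℝ (fun p : ℝ × ℝ => c (pt p.1 p.2) * c (h • pt p.1 p.2) *
      (((((h 1 0 * p.1 + h 1 1) ^ 2 + (h 1 0) ^ 2 * Real.exp (2 * p.2)) ^ (-(1 / 2 : ℝ)) : ℝ)) : ℂ)) (x, τ)‖ ≤ K ∧
    ‖c (pt x τ) * c (h • pt x τ) *
      (((((h 1 0 * x + h 1 1) ^ 2 + (h 1 0) ^ 2 * Real.exp (2 * τ)) ^ (-(1 / 2 : ℝ)) : ℝ)) : ℂ)‖ ≤ K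

/-- **Row OV2** (from OV1, OIB, VDC, CV1). By invariance (`z → g • z`) take `g = 1`, `h = g'⁻¹ g`... so the integral is `∫ pk r c z * pk r c (h • z) dz = ∬ e^{-τ} c(z) c(h•z) (y · y/D)^{1/2} e^{ir(2τ - log D)}`, `D = (h₁₀x+h₁₁)² + h₁₀² e^{2τ}`, amplitude as in OV1
(`e^{-τ} (y²/D)^{1/2} = D^{-1/2}`), phase `rΘ`, `Θ = 2τ - log D`, `Θ_τ = 2(h₁₀x+h₁₁)²/D`. If `|h₁₀x+h₁₁| ≥ 1/8` for some `x` of the box then `≥ 1/32` on the whole box (`|h₁₀| ≤ 3`, it varies by `≤ 3/32`): OIB in `τ`: `Θ_τ ≥ (2/1024)/20`, `|Θ_ττ| ≤ 1`, so `≤ K/r`.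
Otherwise `|h₁₀x+h₁₁| ≤ 1/8` on the box, so `h₁₀²e^{2τ} ≥ 1/2 - 1/64 ≥ 1/4` where the integrand is nonzero (`D ≥ 1/2`), and `Θ_xx = -2h₁₀²(h₁₀²e^{2τ} - (h₁₀x+h₁₁)²)/D²` has absolute value `≥ 1/32`: VDC in `x`: `≤ K r^{-1/2}`. (The amplitude vanishes off the box; for fixed `τ`
the integrand vanishes identically unless `D ≥ 1/2` somewhere; `D` varies little.) -/
def OV2_stmt : Prop := ∀ c : ℍ → ℂ, TB (1 / 64) c → ∃ K : ℝ, 0 < K ∧ ∀ (r : ℝ) (g g' : SL(2, ℝ)), 1 ≤ r →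
  ‖∫ z : ℍ, pk r c (g⁻¹ • z) * pk r c (g'⁻¹ • z)‖ ≤ K / Real.sqrt r

/-! ## G. Invariance under the geodesic flow up to the Ehrenfest time -/

/-- the sum of the norms which occur in the error terms -/
def qS (F : Set ℍ) (c : ℍ → ℂ) (r : ℝ) (φ : ℍ → ℂ) : ℝ :=
  qn F c r φ + qn F (xm c) r φ + qn F (px c) r φ + qn F (xm (px c)) r φ + qn F (kW c) r φ + qn F (kW (px c)) r φ +
    qn F (QU.lap c) r φ

/-- **Row INA** (the key identity; from FL0-FL4, GIP, GWB, GFD, GBD, GLC). `Ψ, Ψa, Ψn, Ψl` continuous invariant, `Ψa` etc. the derivatives of `Ψ` along `aM, nM, lM` (right multiplication). Write `F_c = Wf (pk r c) φ`, `∫ = ∫_{Γ\G}`.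
`∫ Ψa |F_c|² = -2 Re ∫ Ψ conj F_c (H F_c) = ∫ Ψ|F_c|² + 2 Re ∫ Ψ conj F_c F_{xc_x} + 2 Re ∫ Ψ conj F_c F_{yc_y}` (FL2). Third term: FL4: `(1+2ir)⁻¹(F_{lap c} + (r²-s²)F_c)`, `Re((r²-s²)/(1+2ir)) = (r²-s²)/(1+4r²)`, `|r²-s²| ≤ 3r`. By FL3 for `px c`: `∫ Ψ F_{xc_x} conj F_c =
(1+2ir)⁻¹ ∫ Ψ (U⁻F_{c_x} - F_{kW c_x}) conj F_c`, by parts `= -(1+2ir)⁻¹ [∫ Ψl F_{c_x} conj F_c + ∫ Ψ F_{c_x} ((1-2ir) conj F_{xc} + conj F_{kW c}) + ∫ Ψ F_{kW c_x} conj F_c]`, and `-(1-2ir)/(1+2ir) = 1 - 2/(1+2ir)`. By FL1 (`F_{c_x} = -U⁺F_c`, `U⁺F_{xc} = -F_{c + xc_x}`) and by parts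
`∫ Ψ F_{c_x} conj F_{xc} = ∫ Ψn F_c conj F_{xc} - ∫ Ψ|F_c|² - ∫ Ψ F_c conj F_{xc_x}`. Add the complex conjugate: `∫ Ψ|F_c|² + 2Re ∫ Ψ conj F_c F_{xc_x} = Re ∫ Ψn F_c conj F_{xc} + errors`. (One of the two conjugate expressions is rewritten, the other is kept: with `X = ∫ Ψ F_{xc_x} conj F_c`,
`X + conj X + ∫Ψ|F_c|² = ∫ Ψn F_c conj F_{xc} + E`, `|E| ≤ (C/r)(B0+Bl) qS`.) Cauchy-Schwarz. The function `c` is real valued, so `conj F_{xc}` etc. are as stated without change; `U⁻ conj F_c = conj(U⁻ F_c)`. -/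
def INA_stmt : Prop := ∀ (Γ : Subgroup SL(2, ℝ)) (F : Set ℍ) (c : ℍ → ℂ) (r s : ℝ) (φ : ℍ → ℂ) (Ψ Ψa Ψn Ψl : SL(2, ℝ) → ℝ) (B0 Bn Bl : ℝ),
  QU.SurfaceGroup Γ → QU.NiceDom Γ F → TB (1 / 4) c → (∀ z, conj (c z) = c z) → 1 ≤ r → |s - r| ≤ 1 → EigL Γ (1 / 4 + s ^ 2) φ →
  InvG Γ Ψ → InvG Γ Ψa → InvG Γ Ψn → InvG Γ Ψl →
  (∀ g, HasDerivAt (fun t => Ψ (g * aM t)) (Ψa g) 0) → (∀ g, HasDerivAt (fun t => Ψ (g * nM t)) (Ψn g) 0) →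
  (∀ g, HasDerivAt (fun t => Ψ (g * lM t)) (Ψl g) 0) →
  (∀ g, |Ψ g| ≤ B0) → (∀ g, |Ψn g| ≤ Bn) → (∀ g, |Ψl g| ≤ Bl) →
    |iR F (fun g => Ψa g * ‖Wf (pk r c) φ g‖ ^ 2)| ≤
      Bn * (Real.sqrt (qn F c r φ) * Real.sqrt (qn F (xm c) r φ)) + 20 / r * (B0 + Bl) * qS F c r φ

/-- **Row IN0** (derivatives of `g ↦ V(g • I)`; from GLC, GBD). `Ψ(g) = V(g • I)` is a `C²` function of the matrix entries; `Va(g) = d/dτ V((g aM τ) • I)` etc. are continuous and `Γ`-invariant, hence bounded (GBD).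
`aM τ * aM t = aM t * aM τ`, `nM x * aM t = aM t * nM (e^{-t} x)`, `lM u * aM t = aM t * lM (e^t u)` (GLC): chain rule. (`Va(g) = dY (V∘g) I`, `Vn(g) = dX (V∘g) I`, `Vl(g) = dX (V∘g) I` as `lM u • I = I/(uI+1) = I + u + O(u²)`:
`i/(ui+1) = i(1-ui)/(1+u²) = (u+i)/(1+u²)`.) -/
def IN0_stmt : Prop := ∀ (Γ : Subgroup SL(2, ℝ)) (V : ℍ → ℝ), QU.SurfaceGroup Γ → QU.Inv Γ V → QU.CD 2 V →
  ∃ (Va Vn Vl : SL(2, ℝ) → ℝ) (B : ℝ), 0 ≤ B ∧ InvG Γ Va ∧ InvG Γ Vn ∧ InvG Γ Vl ∧ InvG Γ (fun g => V (g • I)) ∧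
    (∀ g, |V (g • I)| ≤ B ∧ |Va g| ≤ B ∧ |Vn g| ≤ B ∧ |Vl g| ≤ B) ∧
    ∀ (g : SL(2, ℝ)) (t : ℝ),
      HasDerivAt (fun τ : ℝ => V ((g * aM τ * aM t) • I)) (Va (g * aM t)) 0 ∧
      HasDerivAt (fun x : ℝ => V ((g * nM x * aM t) • I)) (Real.exp (-t) * Vn (g * aM t)) 0 ∧
      HasDerivAt (fun u : ℝ => V ((g * lM u * aM t) • I)) (Real.exp t * Vl (g * aM t)) 0

/-- **Row INB** (from INA, IN0, GR2, BK3, CV1, FL0, GLC, GFD, GBD, GWB). `V` of class `C²` and invariant, `Ψ_t(g) = V(g aM t • I)`: its derivatives along `aM, nM, lM` are those of `Ψ_0` at `g aM t` times `1, e^{-t}, e^t` (`nM x * aM t = aM t * nM (e^{-t} x)`,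
`lM u * aM t = aM t * lM (e^t u)`); `Ψ_0` has bounded continuous derivatives (`V` is `C²` and invariant under the cocompact `Γ`). `d/dt ∫ Ψ_t |F_c|² = ∫ (Ψ_t)_a |F_c|²`; INA and `qn F c' r φ ≤ (K/r) nn F φ` for the seven functions (GR2, BK3); integrate over `[0,t]`: `∫ e^{-τ} ≤ 1`, `∫ (1+e^τ) ≤ 2e^t`. -/
def INB_stmt : Prop := ∀ (Γ : Subgroup SL(2, ℝ)) (F : Set ℍ) (V : ℍ → ℝ), QU.SurfaceGroup Γ → QU.NiceDom Γ F → QU.Inv Γ V → QU.CD 2 V →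
  ∃ B : ℝ, 0 ≤ B ∧ ∀ c : ℍ → ℂ, TB (1 / 4) c → (∀ z, conj (c z) = c z) → ∃ K : ℝ, 0 ≤ K ∧ ∀ (r s t : ℝ) (φ : ℍ → ℂ), 1 ≤ r → |s - r| ≤ 1 → |s - r| ≤ r / 100 → 0 ≤ t →
    EigL Γ (1 / 4 + s ^ 2) φ →
      |iR F (fun g => V ((g * aM t) • I) * ‖Wf (pk r c) φ g‖ ^ 2) - iR F (fun g => V (g • I) * ‖Wf (pk r c) φ g‖ ^ 2)| ≤
        B * (Real.sqrt (qn F c r φ) * Real.sqrt (qn F (xm c) r φ)) + K * Real.exp t / r ^ 2 * nn F φ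

/-! ## H. Quantisation -/

/-- **Row QNT** (supports and layers; from GWB, GFD). Let `q` be a frame bound: `qn F c r u ≤ q nn F u` for all `u` in `InvC`. `V : ℍ → [0,1]` continuous invariant, uniformly continuous: `|V z - V z'| ≤ η` if `dist z z' ≤ 4w`; the support of `c(g⁻¹·)` lies in the ball of radius `3w` around `g • I`. For `n` layers `1 ≤ j ≤ n`,
`χ_j` continuous invariant with `1_{V > j/n - η'}... `: precisely `χ_j(z) = min(1, max(0, n(V z + η - j/n) + 1))` is `1` where `V ≥ j/n - η` and `0` where `V ≤ (j-1)/n - η`; if `V(g • I) ≥ j/n` then `φ = χ_j φ` on the support, so `1_{V(g•I) ≥ j/n} |F_c^φ(g)|² ≤ |F_c^{χ_jφ}(g)|²` and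
`∫ 1_{V ≥ j/n}|F_c|² ≤ q ∫ χ_j² |φ|²`. Sum over `j` with weight `1/n`: `V - 1/n ≤ (1/n) Σ_j 1_{V ≥ j/n} ` and `(1/n) Σ_j χ_j(z)² ≤ V(z) + η + 2/n`. Let `n → ∞`. -/
def QNT_stmt : Prop := ∀ (Γ : Subgroup SL(2, ℝ)) (F : Set ℍ) (V : ℍ → ℝ), QU.SurfaceGroup Γ → QU.NiceDom Γ F → QU.Inv Γ V → (∀ z, 0 ≤ V z) → (∀ z, V z ≤ 1) →
  ∀ η : ℝ, 0 < η → ∃ w0 : ℝ, 0 < w0 ∧ ∀ (w : ℝ) (c : ℍ → ℂ) (r q : ℝ), 0 < w → w ≤ w0 → TB w c → (∀ u : ℍ → ℂ, InvC Γ u → qn F c r u ≤ q * nn F u) → 0 ≤ q →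
    ∀ φ : ℍ → ℂ, InvC Γ φ → iR F (fun g => V (g • I) * ‖Wf (pk r c) φ g‖ ^ 2) ≤ q * ((∫ z in F, V z * ‖φ z‖ ^ 2) + η * nn F φ)

/-- **Row PKT** (the packet theorem; from NM2, INB, QNT, OV2, CV1, existence of bump functions). Choose `w` small, `α, β` bumps in `[-w,w]`, `c = pc β α`. In INB: `B √(qn c) √(qn (xm c)) ≤ B (w² + η')^{1/2} (A/r) nn`. -/
def PKT_stmt : Prop := ∀ (Γ : Subgroup SL(2, ℝ)) (F : Set ℍ) (V : ℍ → ℝ), QU.SurfaceGroup Γ → QU.NiceDom Γ F → QU.Inv Γ V → QU.CD 2 V → (∀ z, 0 ≤ V z) → (∀ z, V z ≤ 1) →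
  ∀ η : ℝ, 0 < η → ∃ (c : ℍ → ℂ) (A K r0 : ℝ), TB η c ∧ (∀ z, conj (c z) = c z) ∧ 0 < A ∧ 0 < K ∧ 1 ≤ r0 ∧ ∀ r : ℝ, r0 ≤ r →
    (∀ u : ℍ → ℂ, InvC Γ u → qn F c r u ≤ A / r * nn F u) ∧
    (∀ g g' : SL(2, ℝ), ‖∫ z : ℍ, pk r c (g⁻¹ • z) * pk r c (g'⁻¹ • z)‖ ≤ K / Real.sqrt r) ∧
    ∀ (s : ℝ) (φ : ℍ → ℂ), |s - r| ≤ 1 → EigL Γ (1 / 4 + s ^ 2) φ →
      (1 - η) * (A / r) * nn F φ ≤ qn F c r φ ∧
      ∀ t : ℝ, 0 ≤ t → Real.exp t ≤ r / K →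
        iR F (fun g => V ((g * aM t) • I) * ‖Wf (pk r c) φ g‖ ^ 2) ≤ A / r * ((∫ z in F, V z * ‖φ z‖ ^ 2) + η * nn F φ)

end

end Pool.Agent.RS
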