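import Pool.Agent.helper29.RS.FL1

/-! Row FL3 of project RS (MP_07c750_an). -/

open scoped MatrixGroups ContDiff Topology UpperHalfPlane ComplexConjugate
open UpperHalfPlane MeasureTheory Filter Set

namespace Pool.Agent.RS

theorem FL3 (hGLC : GLC_stmt) (hFL0 : FL0_stmt) : FL3_stmt := by
  intro r c φ hc hφ g
  have hTB := hFL0.1 (1 / 4) c hc
  have h1 := FL1_tst hFL0 r c hc
  have h2 := FL1_tst hFL0 r (xm c) hTB.2.1
  have h3 := FL1_tst hFL0 r (kW c) hTB.2.2.2.1
  have hadd := hGLC.2.2.2.2.2.2.2.2.2.2.2.2.1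
  have key := FL1_gen lM hGLC.2.2.2.2.2.1 hadd (pk r c)
    (fun z => (1 + 2 * (r : ℂ) * Complex.I) * pk r (xm c) z + pk r (kW c) z) φ h1.1 h1.2
    ((continuous_const.mul h2.1).add h3.1) (h2.2.mul_left.add h3.2) hφ ?_ g
  · refine key.congr_deriv ?_
    have hφg : Continuous (fun z : ℍ => φ (g • z)) := hφ.comp (continuous_const_smul g)
    have i2 : Integrable (fun z : ℍ => pk r (xm c) z * φ (g • z)) := (h2.1.mul hφg).integrable_of_hasCompactSupport h2.2.mul_right
    have i3 : Integrable (fun z : ℍ => pk r (kW c) z * φ (g • z)) := (h3.1.mul hφg).integrable_of_hasCompactSupport h3.2.mul_right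
    unfold Wf
    have e : ∀ z : ℍ, ((1 + 2 * (r : ℂ) * Complex.I) * pk r (xm c) z + pk r (kW c) z) * φ (g • z) =
        (1 + 2 * (r : ℂ) * Complex.I) * (pk r (xm c) z * φ (g • z)) + pk r (kW c) z * φ (g • z) := by
      intro z
      ring
    simp only [e]
    rw [integral_add (i2.const_mul _) i3, integral_const_mul]
  · intro z
    have hw : HasDerivAt (fun t : ℝ => ((lM (-t) • z : ℍ) : ℂ)) ((z : ℂ) ^ 2) 0 := by
      have e : (fun t : ℝ => ((lM (-t) • z : ℍ) : ℂ)) = fun t : ℝ => (z : ℂ) / (-(t : ℂ) * (z : ℂ) + 1) := by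
        funext t
        rw [hGLC.2.2.2.2.2.2.2.2.2.1]
        push_cast
        ring
      rw [e]
      have h4 : HasDerivAt (fun t : ℝ => -(t : ℂ) * (z : ℂ) + 1) (-1 * (z : ℂ)) 0 :=
        (((Complex.ofRealCLM.hasDerivAt (x := (0 : ℝ))).neg).mul_const (z : ℂ)).add_const 1
      have h5 := (hasDerivAt_const (0 : ℝ) (z : ℂ)).div h4 (by simp)
      refine h5.congr_deriv ?_
      simp
      ring
    have hk := FL1_pk r c hc.1 z (fun t => lM (-t) • z) ((z : ℂ) ^ 2) (by
      rw [neg_zero, (FL1_inv lM hadd 0).2, one_smul]) hw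
    refine hk.congr_deriv ?_
    have hz : (z : ℂ) ^ 2 = (z.re ^ 2 - z.im ^ 2 : ℝ) • (1 : ℂ) + (2 * z.re * z.im : ℝ) • Complex.I := by
      apply Complex.ext
      · simp [pow_two]
      · simp [pow_two]
        ring
    have hlin : fderiv ℝ (QU.onC c) (z : ℂ) ((z : ℂ) ^ 2) = kW c z := by
      rw [hz, map_add, map_smul, map_smul]
      unfold kW px QU.dY
      simp only [Complex.real_smul]
      push_cast
      ring
    rw [hlin]
    have him : ((((z : ℂ) ^ 2).im / z.im : ℝ)) = 2 * z.re := by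
      have h6 : ((z : ℂ) ^ 2).im = 2 * z.re * z.im := by
        simp [pow_two]
        ring
      rw [h6]
      field_simp [z.im_pos.ne']
    rw [him]
    unfold pk xm
    push_cast
    ring

end Pool.Agent.RS
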