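import Pool.Agent.helper62.RS.SpecS
import Pool.Agent.helper29.RS.SpecK

/-!
# MP_07c750: rare scars, block K, part 2: bridge to the circle and the interface of the assembly
-/

open scoped MatrixGroups ContDiff Topology UpperHalfPlane ComplexConjugate
open UpperHalfPlane MeasureTheory Filter Set

namespace Pool.Agent.RS

noncomputable section

/-- **Row GBK** (from GLC, CV1, FL0, BK3 for integrability; substitution `t = cot θ`). `Im(kM θ • z) = y/|cos θ - z sin θ|² = Pk z (cot θ)/sin² θ`, so `ft (-s) (pk r c) θ = |sin θ|^{-1+2is} bI (cc c) r s (cot θ)`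
(CV1) for `sin θ ≠ 0`, `|ft|² = |bI(cot θ)|²/sin² θ`; `∫_0^{2π} = 2 ∫_0^π` (`sin² `, `cot` have period `π`) and `∫_0^π |bI(cot θ)|² dθ/sin²θ = ∫_ℝ |bI(t)|² dt`
(`MeasureTheory.integral_image_eq_integral_abs_deriv_smul` for `cot` on `(0,π)`, image `ℝ`, injective, derivative `-1/sin²`). So `gf = (1/2π) 2 ∫ |bI|² = bk`. -/
def GBK_stmt : Prop := ∀ c : ℍ → ℂ, TB (1 / 4) c → ∀ r s : ℝ,
  gf (-s) (pk r c) (pk r c) = ((bk (cc c) r s : ℝ) : ℂ)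

/-- **Row KPK** (interface of the assembly; from NM2, INB, OV2, CV1, FL0, SGR; bump functions `α = β ≥ 0` in `[-w,w]`, `w` small, `e = pk r (pc β α)`). The ball: if `|x| ≤ w`, `|log y| ≤ w` then `dist z I ≤ 3w` (`QU.tt z I = (x²+(y-1)²)/(2y)`).
`(gf s e e).re nn F φ = qn F c r φ` by SGR with `u = φ`, and NM2. Invariance: INB, where `B √(qn c) √(qn (xm c)) ≤ B (w²+η')^{1/2} (A/r) nn` is at most `(η/2) (A/r) nn` if `w`, `η'` are small, and `K e^t/r² ≤ (η/2) A/r` if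
`t ≤ log r - C`. -/
def KPK_stmt : Prop := ∀ (Γ : Subgroup SL(2, ℝ)) (F : Set ℍ) (V : ℍ → ℝ), QU.SurfaceGroup Γ → QU.NiceDom Γ F → QU.Inv Γ V → QU.CD 2 V →
  ∀ η : ℝ, 0 < η → ∃ C a r0 : ℝ, 0 < C ∧ 0 < a ∧ 1 ≤ r0 ∧ ∀ r : ℝ, r0 ≤ r → ∃ (e : ℍ → ℂ) (κ : ℝ), Tst e ∧
    (∀ z, e z ≠ 0 → dist z I ≤ η) ∧ a / r ≤ κ ∧
    (∀ u : ℍ → ℂ, InvC Γ u → iR F (fun g => ‖Wf e u g‖ ^ 2) ≤ κ * nn F u) ∧
    (∀ h : SL(2, ℝ), ‖∫ z : ℍ, e z * e (h • z)‖ ≤ C / Real.sqrt r) ∧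
    ∀ (s : ℝ) (φ : ℍ → ℂ), r ≤ s → s ≤ r + 1 → Eig Γ s φ →
      (1 - η) * κ * nn F φ ≤ iR F (fun g => ‖Wf e φ g‖ ^ 2) ∧
      (0 < nn F φ → (1 - η) * κ ≤ (gf s e e).re) ∧
      ∀ t : ℝ, 0 ≤ t → t ≤ Real.log r - C →
        |iR F (fun g => V ((g * aM t) • I) * ‖Wf e φ g‖ ^ 2) - iR F (fun g => V (g • I) * ‖Wf e φ g‖ ^ 2)| ≤ η * κ * nn F φ

end

end Pool.Agent.RS
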